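import Pool.Agent.H98.Q.Par

/-!
# The Frobenius map and square roots
-/

set_option autoImplicit false
set_option linter.unusedSectionVars false
set_option linter.unusedVariables false

namespace Pool.Agent.H98.Q

/-- quadratic reciprocity -/
lemma recip {d : ℤ} (hd : Dd d) {p : ℕ} [Fact p.Prime] (hp : p ≠ 2) [Fact d.natAbs.Prime]
    (hpq : p ≠ d.natAbs) : legendreSym d.natAbs p = legendreSym p d := by
  have h4 := hd.m4
  have hq2 : d.natAbs ≠ 2 := by omega
  rcases Int.natAbs_eq d with h | h
  · -- `d = q`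
    have hq4 : d.natAbs % 4 = 1 := by omega
    have h1 := legendreSym.quadratic_reciprocity_one_mod_four (p := d.natAbs) (q := p) hq4 hp
    rw [← h1]
    conv_rhs => rw [h]
  · have hq4 : d.natAbs % 4 = 3 := by omega
    have e : legendreSym p d = legendreSym p (-1) * legendreSym p (d.natAbs : ℤ) := by
      conv_lhs => rw [h]
      rw [← legendreSym.mul]
      congr 1
      ring
    rw [e, legendreSym.at_neg_one hp]
    have hpo : p % 2 = 1 := (Fact.out : p.Prime).eq_two_or_odd.resolve_left hp
    have hp4 : p % 4 = 1 ∨ p % 4 = 3 := by omega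
    rcases hp4 with h5 | h5
    · have h6 := legendreSym.quadratic_reciprocity_one_mod_four (p := p) (q := d.natAbs) h5 hq2
      rw [ZMod.χ₄_nat_one_mod_four h5, one_mul, h6]
    · have h6 := legendreSym.quadratic_reciprocity_three_mod_four (p := p) (q := d.natAbs) h5 hq4
      rw [ZMod.χ₄_nat_three_mod_four h5, h6]
      ring

theorem finq {κ : Type*} [Field κ] {p : ℕ} [Fact p.Prime] [CharP κ p] {d m : ℤ} (hd : Dd d)
    [Fact d.natAbs.Prime] (hm : d = 1 + 4 * m) (hpq : p ≠ d.natAbs) {θ : κ} (hθ : θ ^ 2 = θ + m) (n : ℕ) :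
    (quadraticChar (ZMod d.natAbs) ((p ^ n : ℕ) : ZMod d.natAbs) = 1 → θ ^ (p ^ n) = θ) ∧
      (quadraticChar (ZMod d.natAbs) ((p ^ n : ℕ) : ZMod d.natAbs) = -1 → θ ^ (p ^ n) = 1 - θ) := by
  have hch : quadraticChar (ZMod d.natAbs) ((p ^ n : ℕ) : ZMod d.natAbs) =
      (legendreSym d.natAbs p) ^ n := by
    rw [Nat.cast_pow, map_pow]
    congr 1
    unfold legendreSym
    rw [Int.cast_natCast]
  rw [hch]
  by_cases hp : p = 2
  · subst hp
    have h2κ : (2 : κ) = 0 := by
      have := CharP.cast_eq_zero κ 2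
      exact_mod_cast this
    have h4 := hd.m4
    have hsq : ∀ z : ℤ, ((z : κ)) ^ 2 = z := by
      intro z
      obtain ⟨k, hk | hk⟩ : ∃ k, z = 2 * k ∨ z = 2 * k + 1 := ⟨z / 2, by omega⟩
      · rw [hk]
        push_cast
        rw [h2κ]
        ring
      · rw [hk]
        push_cast
        rw [h2κ]
        ring
    have hit : θ ^ (2 ^ n) = θ + ((n * m : ℤ) : κ) := by
      induction n with
      | zero => simp
      | succ n ih =>
        have ih' := ih (by
          rw [Nat.cast_pow, map_pow]
          congr 1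
          unfold legendreSym
          rw [Int.cast_natCast])
        rw [pow_succ, pow_mul, ih']
        have e1 : (θ + ((n * m : ℤ) : κ)) ^ 2 = θ ^ 2 + (((n * m : ℤ) : κ)) ^ 2 +
            2 * (θ * ((n * m : ℤ) : κ)) := by ring
        rw [e1, hsq, h2κ, hθ]
        push_cast
        ring
    have hL : legendreSym d.natAbs (2 : ℕ) = ZMod.χ₈ (d.natAbs : ZMod 8) := by
      have hq2 : d.natAbs ≠ 2 := by omega
      exact_mod_cast legendreSym.at_two (p := d.natAbs) hq2
    rw [hit, hL]
    have h8 : ∀ r : ℕ, r < 8 → d.natAbs % 8 = r → ZMod.χ₈ (d.natAbs : ZMod 8) = ZMod.χ₈ (r : ZMod 8) := by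
      intro r hr h
      congr 1
      rw [ZMod.natCast_eq_natCast_iff']
      omega
    obtain ⟨k, hk | hk⟩ : ∃ k, m = 2 * k ∨ m = 2 * k + 1 := ⟨m / 2, by omega⟩
    · have e8 : ZMod.χ₈ (d.natAbs : ZMod 8) = 1 := by
        have : d.natAbs % 8 = 1 ∨ d.natAbs % 8 = 7 := by omega
        rcases this with h | h
        · rw [h8 1 (by norm_num) h]; decide
        · rw [h8 7 (by norm_num) h]; decide
      have e0 : ((n * m : ℤ) : κ) = 0 := by
        rw [hk]
        push_cast
        rw [h2κ]
        ring
      rw [e8, one_pow, e0, add_zero]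
      refine ⟨fun _ => rfl, fun h => ?_⟩
      norm_num at h
    · have e8 : ZMod.χ₈ (d.natAbs : ZMod 8) = -1 := by
        have : d.natAbs % 8 = 5 ∨ d.natAbs % 8 = 3 := by omega
        rcases this with h | h
        · rw [h8 5 (by norm_num) h]; decide
        · rw [h8 3 (by norm_num) h]; decide
      rw [e8]
      have e0 : ((n * m : ℤ) : κ) = n := by
        rw [hk]
        push_cast
        rw [h2κ]
        ring
      rw [e0]
      rcases Nat.even_or_odd n with hn | hn
      · obtain ⟨j, rfl⟩ := hn
        have e1 : (((j + j : ℕ)) : κ) = 0 := by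
          have : (((j + j : ℕ)) : κ) = 2 * j := by push_cast; ring
          rw [this, h2κ, zero_mul]
        rw [e1, add_zero]
        refine ⟨fun _ => rfl, fun h => ?_⟩
        rw [Even.neg_one_pow ⟨j, rfl⟩] at h
        norm_num at h
      · obtain ⟨j, rfl⟩ := hn
        refine ⟨fun h => ?_, fun _ => ?_⟩
        · rw [Odd.neg_one_pow ⟨j, rfl⟩] at h
          norm_num at h
        · push_cast
          rw [h2κ]
          have : (θ + (0 * (j : κ) + 1)) = (1 - θ) + 2 * θ := by ring
          rw [this, h2κ]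
          ring
  · -- odd characteristic
    have hrec := recip hd hp hpq
    rw [hrec]
    set ρ : κ := 2 * θ - 1 with hρ
    have hρ2 : ρ ^ 2 = (d : κ) := by
      rw [hρ, hm]
      push_cast
      linear_combination 4 * hθ
    have h20 : (2 : κ) ≠ 0 := by
      intro h
      have h3 : ((2 : ℕ) : κ) = 0 := by exact_mod_cast h
      rw [CharP.cast_eq_zero_iff κ p] at h3
      exact hp ((Nat.prime_dvd_prime_iff_eq Fact.out Nat.prime_two).1 h3)
    let _ : Algebra (ZMod p) κ := ZMod.algebra κ p
    set ε : ℤ := legendreSym p d with hε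
    have hεd : (d : κ) ^ (p / 2) = (ε : κ) := by
      have h1 := legendreSym.eq_pow p d
      have h2 := congrArg (algebraMap (ZMod p) κ) h1
      rw [map_intCast, map_pow, map_intCast] at h2
      exact h2.symm
    have hpo : p % 2 = 1 := (Fact.out : p.Prime).eq_two_or_odd.resolve_left hp
    have hρp : ρ ^ p = (ε : κ) * ρ := by
      have e : p = 2 * (p / 2) + 1 := by omega
      conv_lhs => rw [e]
      rw [pow_add, pow_mul, hρ2, hεd, pow_one]
    have hεp : ∀ z : ℤ, (z : κ) ^ p = z := by
      intro z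
      have h1 : ((z : ZMod p)) ^ p = z := ZMod.pow_card _
      have h2 := congrArg (algebraMap (ZMod p) κ) h1
      rw [map_pow, map_intCast] at h2
      exact h2
    have hρn : ∀ n : ℕ, ρ ^ (p ^ n) = ((ε ^ n : ℤ) : κ) * ρ := by
      intro n
      induction n with
      | zero => simp
      | succ n ih =>
        rw [pow_succ, pow_mul, ih, mul_pow, hεp, hρp]
        push_cast
        ring
    have hφ : ∀ x : κ, iterateFrobenius κ p n x = x ^ (p ^ n) := fun x => iterateFrobenius_def p n x
    have h5 : 2 * θ ^ (p ^ n) - 1 = ((ε ^ n : ℤ) : κ) * ρ := by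
      rw [← hρn n, ← hφ ρ, hρ, map_sub, map_mul, map_ofNat, map_one, hφ]
    constructor
    · intro h
      rw [h, Int.cast_one, one_mul, hρ] at h5
      apply mul_left_cancel₀ h20
      linear_combination h5
    · intro h
      rw [h, Int.cast_neg, Int.cast_one, hρ] at h5
      apply mul_left_cancel₀ h20
      linear_combination h5

end Pool.Agent.H98.Q
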