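import Mathlib

/-!
# The order of vanishing is odd
-/

set_option autoImplicit false

open Filter Topology

namespace Pool.Agent.H98.Q

/-- the order of vanishing at the centre is odd, if the sign is minus one -/
lemma odd_ord {F : ℂ → ℂ} (hF : Differentiable ℂ F) {A : ℂ} (hA : A ≠ 0) {n : ℕ}
    (ho : (n : ℕ∞) = analyticOrderAt F 1)
    (h : ∀ s : ℂ, 0 < s.re → s.re < 2 → A ^ s * Complex.Gamma s * F s =
      -1 * (A ^ (2 - s) * Complex.Gamma (2 - s) * F (2 - s))) : Odd n := by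
  obtain ⟨g, hg, hg1, he⟩ := (hF.analyticAt 1).analyticOrderAt_eq_natCast.1 ho.symm
  rw [← Nat.not_even_iff_odd]
  intro hev
  -- the equation near `1`
  have hre : ∀ᶠ s : ℂ in 𝓝 1, 0 < s.re ∧ s.re < 2 := by
    have h1 : {s : ℂ | 0 < s.re} ∈ 𝓝 (1 : ℂ) :=
      (isOpen_lt continuous_const Complex.continuous_re).mem_nhds (by simp)
    have h2 : {s : ℂ | s.re < 2} ∈ 𝓝 (1 : ℂ) :=
      (isOpen_lt Complex.continuous_re continuous_const).mem_nhds (by simp)
    filter_upwards [h1, h2] with s h3 h4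
    exact ⟨h3, h4⟩
  have ht : Tendsto (fun s : ℂ => 2 - s) (𝓝 1) (𝓝 1) := by
    have : Continuous (fun s : ℂ => 2 - s) := by fun_prop
    have h1 := this.tendsto 1
    norm_num at h1
    exact h1
  have he2 := ht.eventually he
  set G : ℂ → ℂ := fun s => A ^ s * Complex.Gamma s * g s with hG
  have hcG : ContinuousAt G 1 := by
    refine ContinuousAt.mul (ContinuousAt.mul (continuousAt_const_cpow hA) ?_) hg.continuousAt
    refine (Complex.differentiableAt_Gamma 1 fun m => ?_).continuousAt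
    intro hm
    have := congrArg Complex.re hm
    simp at this
    have h0 : (0 : ℝ) ≤ m := Nat.cast_nonneg m
    linarith
  have hG1 : G 1 ≠ 0 := by
    show A ^ (1 : ℂ) * Complex.Gamma 1 * g 1 ≠ 0
    rw [Complex.cpow_one, Complex.Gamma_one, mul_one]
    exact mul_ne_zero hA hg1
  have heq : ∀ᶠ s : ℂ in 𝓝[≠] 1, G s = -G (2 - s) := by
    have hre' := hre.filter_mono (nhdsWithin_le_nhds (s := {1}ᶜ))
    have he' := he.filter_mono (nhdsWithin_le_nhds (s := {1}ᶜ))
    have he2' := he2.filter_mono (nhdsWithin_le_nhds (s := {1}ᶜ))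
    filter_upwards [hre', he', he2', self_mem_nhdsWithin] with s h1 h2 h3 h4
    have h5 := h s h1.1 h1.2
    rw [h2, h3, smul_eq_mul, smul_eq_mul] at h5
    have h6 : (2 - s - 1) ^ n = (s - 1) ^ n := by
      have : 2 - s - 1 = -(s - 1) := by ring
      rw [this, hev.neg_pow]
    rw [h6] at h5
    have h7 : (s - 1) ^ n ≠ 0 := pow_ne_zero n (sub_ne_zero.2 h4)
    apply mul_left_cancel₀ h7
    show (s - 1) ^ n * (A ^ s * Complex.Gamma s * g s) =
      (s - 1) ^ n * -(A ^ (2 - s) * Complex.Gamma (2 - s) * g (2 - s))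
    linear_combination h5
  have l1 : Tendsto G (𝓝[≠] 1) (𝓝 (G 1)) := hcG.tendsto.mono_left nhdsWithin_le_nhds
  have l2 : Tendsto (fun s => -G (2 - s)) (𝓝[≠] 1) (𝓝 (-G 1)) := by
    have h1 : Tendsto (fun s => G (2 - s)) (𝓝 1) (𝓝 (G 1)) := hcG.tendsto.comp ht
    exact (h1.mono_left nhdsWithin_le_nhds).neg
  have l3 := tendsto_nhds_unique (l1.congr' heq) l2
  apply hG1
  have h8 : G 1 + G 1 = 0 := by
    nth_rewrite 1 [l3]
    ring
  have h9 : 2 * G 1 = 0 := by rw [two_mul]; exact h8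
  exact (mul_eq_zero.1 h9).resolve_left two_ne_zero

end Pool.Agent.H98.Q
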