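import Pool.Agent.H98.Q.Chi
import Pool.Agent.H98.Q.Fin
import Pool.Agent.H98.Q.Odd
import Pool.Agent.H98.B.Concl

/-!
# The base of the tower
-/

set_option autoImplicit false
set_option linter.unusedSectionVars false
set_option linter.unusedVariables false

open Complex NumberField IsDedekindDomain Filter Topology
open scoped PeriodPair nonZeroDivisors

namespace Pool.Agent.H98.Q

open Pool.Agent.K7.H56
open Pool.Agent.K7.H56.P
open Pool.Agent.R430
open Pool.Agent.Y696 Pool.Agent.W192.HK Pool.Agent.TH936.CM H667R3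
open Pool.Agent.TH936.PU
open Pool.Agent.TH936.AC Pool.Agent.TH936.AD
open Pool.Agent.Y688 (NI HL euler v_sub_one v_root v_RR dn dn_surj)
open Pool.Agent.K7.H70.AS
open Pool.Agent.K7.H70.SM
open Pool.Agent.K7.H56.M
open Pool.Agent.K7.H73.NM (eI rN_map j_surj)
open Pool.Agent.K7.H73.L3 (gz3 base3 fr3)
open Pool.Agent.H98.B (abs_prime VV_of Wc_psi awc afe dfe hbasic abs_nm qp_eis cs_psi exists_sgn
  L_prod_ev ord_mul_left VV_ev X03_bot abs_eI)

theorem cst_pos {R : Type} [Ring R] {d : ℤ} {n : ℕ} (h : d = (n : ℤ)) : (d : R) = (n : R) := by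
  subst h
  exact Int.cast_natCast n

theorem cst_neg {R : Type} [Ring R] {d : ℤ} {n : ℕ} (h : d = -(n : ℤ)) : (d : R) = -(n : R) := by
  subst h
  rw [Int.cast_neg, Int.cast_natCast]

section frob
variable {N D : Type} [Field N] [NumberField N] [Field D] [NumberField D] [Algebra N D]
  [IsGalois N D] {r : D} {d : ℤ}

/-- **the character of the field `N(√d)`** -/
theorem XR_d (hd : Dd d) [Fact d.natAbs.Prime] (hN : Pd d N) (h2 : Module.finrank N D = 2)
    (hr : r ^ 2 = d) {X : Gal(D/N) →* ℂˣ}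
    (hX : ∀ σ, σ ≠ 1 → X σ = -1) (P : HeightOneSpectrum (𝓞 N)) :
    XR X P.asIdeal =
      ((quadraticChar (ZMod d.natAbs) ((Ideal.absNorm P.asIdeal : ℕ) : ZMod d.natAbs) : ℤ) : ℂ) := by
  have hqdv : ∀ {R : Type} [CommRing R] (I : Ideal R), ((d.natAbs : ℕ) : R) ∈ I ↔ (d : R) ∈ I := by
    intro R _ I
    rcases Int.natAbs_eq d with h | h
    · have : (d : R) = ((d.natAbs : ℕ) : R) := cst_pos h
      rw [this]
    · have : (d : R) = -((d.natAbs : ℕ) : R) := cst_neg h
      rw [this, Ideal.neg_mem_iff]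
  by_cases h5 : (d : 𝓞 N) ∈ P.asIdeal
  · have hP := pd_uniq hd hN h5
    have hram : P ∈ SR N D := by
      obtain ⟨w, σ, hσ, hin, hw⟩ := d_ram hd hN h2 hr
      refine ⟨w, ⟨σ, hσ, hin⟩, ?_⟩
      rw [hP]
      exact HeightOneSpectrum.ext hw
    rw [XR_pos (SR_iff.2 hram)]
    obtain ⟨w, hw⟩ := dn_surj (K := D) P
    obtain ⟨p, n, hp, hn, hn0, -, hpP⟩ := abs_prime P w hw
    have hp5 : p = d.natAbs := by
      by_contra hne
      have hcop : Nat.Coprime p d.natAbs := (Nat.coprime_primes hp hd.pr).2 hne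
      have hcop' : IsCoprime (p : ℤ) (d.natAbs : ℤ) := Nat.isCoprime_iff_coprime.2 hcop
      obtain ⟨a, b, hab⟩ := hcop'
      apply P.isPrime.ne_top
      rw [Ideal.eq_top_iff_one]
      have e : (1 : 𝓞 N) = (a : 𝓞 N) * (p : 𝓞 N) + (b : 𝓞 N) * ((d.natAbs : ℕ) : 𝓞 N) := by
        have := congrArg (fun z : ℤ => (z : 𝓞 N)) hab
        simp only [Int.cast_add, Int.cast_mul, Int.cast_one, Int.cast_natCast] at this
        exact this.symm
      rw [e]
      exact Ideal.add_mem _ (Ideal.mul_mem_left _ _ hpP)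
        (Ideal.mul_mem_left _ _ ((hqdv P.asIdeal).2 h5))
    rw [hn, hp5]
    have e : (((d.natAbs ^ n : ℕ)) : ZMod d.natAbs) = 0 := by
      rw [Nat.cast_pow, CharP.cast_eq_zero, zero_pow hn0]
    rw [e, quadraticChar_zero, Int.cast_zero]
  · have hnr : P ∉ SR N D := by
      rintro ⟨w, ⟨σ, hσ, hin⟩, hw⟩
      apply hσ
      refine d_away hd hN h2 hr ?_ hin
      intro h
      apply h5
      rw [← hw]
      show algebraMap (𝓞 N) (𝓞 D) d ∈ w.asIdeal
      rwa [map_intCast]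
    rw [XR_neg (fun h => hnr (SR_iff.1 h)), XX_prime _ (Ideal.prime_of_isPrime P.ne_bot P.isPrime)]
    obtain ⟨w, hw, hfr⟩ := frP_spec (K := D) P
    obtain ⟨p, n, hp, hn, hn0, hch, hpP⟩ := abs_prime P w hw
    have hFp : Fact p.Prime := ⟨hp⟩
    set σ := frP D P.asIdeal with hσd
    have hmaxw : w.asIdeal.IsMaximal := w.isMaximal
    let _ : Field (𝓞 D ⧸ w.asIdeal) := Ideal.Quotient.field _
    have h5w : (d : 𝓞 D) ∉ w.asIdeal := by
      intro h
      apply h5
      rw [← hw]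
      show algebraMap (𝓞 N) (𝓞 D) d ∈ w.asIdeal
      rwa [map_intCast]
    obtain ⟨m, hm⟩ := hd.odd
    have hdD : (d : D) = 1 + 4 * m := by
      rw [hm]
      push_cast
      ring
    obtain ⟨z, hz⟩ : ∃ z : 𝓞 D, (z : D) = (1 + r) / 2 := ⟨⟨_, int_half hd hr⟩, rfl⟩
    have hz2 : z ^ 2 = z + m := by
      apply RingOfIntegers.ext
      have e1 : ((z ^ 2 : 𝓞 D) : D) = (z : D) ^ 2 := by push_cast; rfl
      have e2 : ((z + m : 𝓞 D) : D) = (z : D) + m := by push_cast; rfl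
      rw [e1, e2, hz]
      rw [hdD] at hr
      field_simp
      linear_combination hr
    have h5z : (2 * z - 1) * (2 * z - 1) = (d : 𝓞 D) := by
      rw [hm]
      push_cast
      linear_combination 4 * hz2
    have h5zw : (2 * z - 1 : 𝓞 D) ∉ w.asIdeal := fun h => h5w (by
      rw [← h5z]
      exact Ideal.mul_mem_left _ _ h)
    have hpq : p ≠ d.natAbs := by
      rintro rfl
      exact h5 ((hqdv P.asIdeal).1 hpP)
    have hcong := hfr z
    have hq := finq (κ := 𝓞 D ⧸ w.asIdeal) (p := p) hd hm hpq (θ := Ideal.Quotient.mk w.asIdeal z)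
      (by rw [← map_pow, hz2, map_add, map_intCast]) n
    rw [hn] at hcong ⊢
    have hcong' : Ideal.Quotient.mk w.asIdeal (σ • z) = (Ideal.Quotient.mk w.asIdeal z) ^ (p ^ n) := by
      rw [← map_pow, Ideal.Quotient.eq]
      exact hcong
    have hσz : σ ≠ 1 → σ • z = 1 - z := by
      intro hne
      apply RingOfIntegers.ext
      show σ (z : D) = ((1 - z : 𝓞 D) : D)
      have e2 : ((1 - z : 𝓞 D) : D) = 1 - (z : D) := by push_cast; rfl
      rw [e2, hz, map_div₀, map_add, map_one, d_neg hd hN h2 hr hne, map_ofNat]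
      field_simp
      ring
    have hne0 : ((p ^ n : ℕ) : ZMod d.natAbs) ≠ 0 := by
      rw [Ne, ZMod.natCast_eq_zero_iff]
      intro h
      have h6 := (Nat.Prime.dvd_of_dvd_pow hd.pr h)
      exact hpq ((Nat.prime_dvd_prime_iff_eq hd.pr hp).1 h6).symm
    rcases quadraticChar_dichotomy hne0 with h | h
    · have h6 : σ = 1 := by
        by_contra hne
        have h7 := hq.1 h
        rw [← hcong', hσz hne, Ideal.Quotient.eq] at h7
        apply h5zw
        have : (2 * z - 1 : 𝓞 D) = -(1 - z - z) := by ring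
        rw [this, Ideal.neg_mem_iff]
        exact h7
      rw [h6, map_one, h]
      norm_num
    · have h6 : σ ≠ 1 := by
        intro h1
        have h7 := hq.2 h
        rw [← hcong', h1, one_smul, ← map_one (Ideal.Quotient.mk w.asIdeal), ← map_sub,
          Ideal.Quotient.eq] at h7
        apply h5zw
        have : (2 * z - 1 : 𝓞 D) = z - (1 - z) := by ring
        rw [this]
        exact h7
      rw [hX σ h6, h]
      simp

end frob

section fe

/-- **the L-function of the twist** -/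
theorem exists_Fq {q : ℕ} [hF : Fact q.Prime] (hq2 : q ≠ 2) (hq3 : q % 3 = 2)
    (N : Type) [Field N] [NumberField N] [IsCyclotomicExtension {3} ℚ N]
    (ι : Pool.Agent.Y688.RR →+* 𝓞 N) : ∃ F : ℂ → ℂ, Differentiable ℂ F ∧
      (∀ z : ℂ, 3 / 2 < z.re → HasSum (fun I : Ideal eis => thq q I * (nm I : ℂ) ^ (-z)) (F z)) ∧
      F 1 = 0 ∧ ∃ A : ℂ, A ≠ 0 ∧ ∀ s : ℂ, 0 < s.re → s.re < 2 → A ^ s * Complex.Gamma s * F s =
        -1 * (A ^ (2 - s) * Complex.Gamma (2 - s) * F (2 - s)) := by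
  obtain ⟨φ, T1, hS, hq⟩ := awc eis om qp_eis (sp (3 : eis)) psi hc_psi cs_psi
  obtain ⟨T, hT, hTa⟩ := hq q hF.out (cop3q hq3) (cq q) (hc_cq hq2 hq3) (rg_cq hq2 hq3) 2
    (od_cq hq2 hq3)
  have hW := hTa 1 (by norm_num)
  have hpw : (fun I : Ideal eis => psi I * Pool.Agent.W192.HK.pw (cq q) 1 I) = thq q := by
    funext I
    unfold thq Pool.Agent.W192.HK.pw
    split_ifs with h
    · rw [h]
    · rw [pow_one]
  rw [hpw, Wc_psi N ι hS, psi_q hq3, cq_three hq3] at hW
  have hq0 : (q : ℂ) ≠ 0 := Nat.cast_ne_zero.2 hF.out.ne_zero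
  have hW' : Wc om 1 (sp (3 : eis) * sp ((q : ℕ) : eis)) ⊤ (φ * ((q : ℕ) : eis)) T (thq q) = -1 := by
    rw [hW]
    field_simp
  obtain ⟨-, F, hF1, hF2, hFE, -⟩ := afe eis om qp_eis _ (thq q) (hc_thq hq2 hq3) cs_thq {⊤} ⊤ _ T hT _ rfl
  obtain ⟨h1, h2⟩ := dfe eis om qp_eis 1 le_rfl _ (thq q) (hc_thq hq2 hq3) cs_thq {⊤} ⊤ _ T hT hW' F hF1 (by
    intro z hz
    apply hF2
    norm_num at hz
    linarith)
  rw [Nat.cast_one] at h1 h2
  rw [hW'] at hFE
  refine ⟨F, hF1, hF2, h1, _, ?_, hFE⟩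
  rw [Complex.ofReal_ne_zero]
  have him : (0 : ℝ) < om.im := om_im
  have hnm : (0 : ℝ) < nm (sp (3 : eis) * sp ((q : ℕ) : eis)) := by
    have h4 : (sp (3 : eis) * sp ((q : ℕ) : eis)) = sp (((3 * q : ℤ) : eis) + ((0 : ℤ) : eis) * omr) := by
      have h5 : (sp (3 : eis) * sp ((q : ℕ) : eis)) = Ideal.span {(3 : eis) * ((q : ℕ) : eis)} :=
        Ideal.span_singleton_mul_span_singleton _ _
      rw [h5]
      congr 2
      push_cast
      ring
    have h6 := Pool.Agent.H98.B.nrmA (3 * q : ℤ) 0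
    rw [h4, ← abs_nm]
    have h7 : (0 : ℤ) < ((Ideal.absNorm (sp (((3 * q : ℤ) : eis) + ((0 : ℤ) : eis) * omr)) : ℕ) : ℤ) := by
      rw [h6]
      have := hF.out.pos
      nlinarith
    exact_mod_cast h7
  positivity

/-- the order is finite -/
theorem ord_fin {θ : Ideal eis → ℂ} (h1 : θ ⊤ = 1) {F : ℂ → ℂ} (hF1 : Differentiable ℂ F)
    (hF2 : ∀ z : ℂ, 3 / 2 < z.re → HasSum (fun I : Ideal eis => θ I * (nm I : ℂ) ^ (-z)) (F z)) :
    analyticOrderAt F 1 ≠ ⊤ := by
  intro htop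
  rw [analyticOrderAt_eq_top] at htop
  have han : AnalyticOnNhd ℂ F Set.univ := fun z _ => hF1.analyticAt z
  have hz : AnalyticOnNhd ℂ (fun _ : ℂ => (0 : ℂ)) Set.univ := fun z _ => analyticAt_const
  have h0 : F = fun _ => 0 := han.eq_of_eventuallyEq hz htop
  have hnm : ∀ I : Ideal eis, nm I = ((Ideal.absNorm I : ℕ) : ℝ) := fun I => (abs_nm I).symm
  have hlim : Tendsto (fun x : ℕ => ∑' I : Ideal eis, θ I * (nm I : ℂ) ^ (-((x : ℝ) : ℂ))) atTop
      (𝓝 (∑' I : Ideal eis, if I = ⊤ then (1 : ℂ) else 0)) := by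
    have hs3 := (hF2 ((3 : ℝ) : ℂ) (by rw [Complex.ofReal_re]; norm_num)).summable.norm
    refine tendsto_tsum_of_dominated_convergence hs3 ?_ ?_
    · intro I
      split_ifs with hI
      · rw [hI, h1]
        have e : (nm (⊤ : Ideal eis) : ℂ) = 1 := by
          rw [hnm, Ideal.absNorm_top]
          norm_num
        simp only [e, Complex.one_cpow, mul_one]
        exact tendsto_const_nhds
      · have h2 : Tendsto (fun x : ℕ => (nm I : ℂ) ^ (-((x : ℝ) : ℂ))) atTop (𝓝 0) := by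
          have h3 : ∀ x : ℕ, 1 ≤ x → (nm I : ℂ) ^ (-((x : ℝ) : ℂ)) = ((nm I : ℂ)⁻¹) ^ x := by
            intro x hx
            rw [Complex.cpow_neg, Complex.ofReal_natCast, Complex.cpow_natCast, inv_pow]
          refine Tendsto.congr' (EventuallyEq.symm ((eventually_ge_atTop 1).mono h3)) ?_
          by_cases hI0 : Ideal.absNorm I = 0
          · rw [hnm, hI0]
            simp only [Nat.cast_zero, Complex.ofReal_zero, inv_zero]
            refine Tendsto.congr' (EventuallyEq.symm ((eventually_ge_atTop 1).mono fun x hx => ?_))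
              tendsto_const_nhds
            exact zero_pow (by omega)
          · apply tendsto_pow_atTop_nhds_zero_of_norm_lt_one
            rw [norm_inv, hnm, Complex.norm_real, Real.norm_natCast]
            have h4 : 1 < Ideal.absNorm I := by
              have h5 : Ideal.absNorm I ≠ 1 := fun h => hI (Ideal.absNorm_eq_one_iff.1 h)
              omega
            apply inv_lt_one_of_one_lt₀
            exact_mod_cast h4
        have h3 := h2.const_mul (θ I)
        rwa [mul_zero] at h3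
    · filter_upwards [eventually_ge_atTop 3] with x hx I
      rw [norm_mul, norm_mul]
      refine mul_le_mul_of_nonneg_left ?_ (norm_nonneg _)
      by_cases hI0 : Ideal.absNorm I = 0
      · rw [hnm, hI0]
        have hx0 : -((x : ℝ) : ℂ) ≠ 0 := by
          rw [neg_ne_zero, Complex.ofReal_ne_zero, Nat.cast_ne_zero]
          omega
        rw [Nat.cast_zero, Complex.ofReal_zero, Complex.zero_cpow hx0, norm_zero]
        exact norm_nonneg _
      · have hpos : 0 < nm I := by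
          rw [hnm]
          exact_mod_cast Nat.pos_of_ne_zero hI0
        rw [Complex.norm_cpow_eq_rpow_re_of_pos hpos, Complex.norm_cpow_eq_rpow_re_of_pos hpos]
        apply Real.rpow_le_rpow_of_exponent_le
        · rw [hnm]
          exact_mod_cast Nat.one_le_iff_ne_zero.2 hI0
        · rw [Complex.neg_re, Complex.neg_re, Complex.ofReal_re, Complex.ofReal_re]
          have : (3 : ℝ) ≤ x := by exact_mod_cast hx
          linarith
  have hz0 : ∀ᶠ x : ℕ in atTop, ∑' I : Ideal eis, θ I * (nm I : ℂ) ^ (-((x : ℝ) : ℂ)) = 0 := by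
    filter_upwards [eventually_ge_atTop 3] with x hx
    have hx' : 3 / 2 < (((x : ℝ) : ℂ)).re := by
      rw [Complex.ofReal_re]
      have : (3 : ℝ) ≤ x := by exact_mod_cast hx
      linarith
    rw [(hF2 _ hx').tsum_eq, h0]
  have h3 := hlim.congr' hz0
  rw [tsum_ite_eq] at h3
  exact zero_ne_one (tendsto_nhds_unique tendsto_const_nhds h3)

end fe

theorem pd_base {d : ℤ} (hd : Dd d) (N : Type) [Field N] [NumberField N]
    [IsCyclotomicExtension {3} ℚ N] (ι : Pool.Agent.Y688.RR →+* 𝓞 N) : Pd d N := by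
  have hFq : Fact d.natAbs.Prime := ⟨hd.pr⟩
  have hspan : (Ideal.span {(d : 𝓞 N)}) = Ideal.span {((d.natAbs : ℕ) : 𝓞 N)} := by
    rcases Int.natAbs_eq d with h | h
    · have : (d : 𝓞 N) = ((d.natAbs : ℕ) : 𝓞 N) := cst_pos h
      rw [this]
    · have : (d : 𝓞 N) = -((d.natAbs : ℕ) : 𝓞 N) := cst_neg h
      rw [this, Ideal.span_singleton_neg]
  show (Ideal.span {(d : 𝓞 N)}).IsPrime
  rw [hspan]
  set q := d.natAbs with hq
  have hj := j_surj (iE ι)
  have hi := eis_inj (iE ι)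
  have h5 : iE ι (q : eis) = (q : 𝓞 N) := map_natCast _ q
  have hdv : ∀ a : eis, iE ι a ∈ Ideal.span {(q : 𝓞 N)} ↔ (q : eis) ∣ a := by
    intro a
    rw [Ideal.mem_span_singleton]
    constructor
    · rintro ⟨c, hc⟩
      obtain ⟨c', rfl⟩ := hj c
      refine ⟨c', hi ?_⟩
      rw [hc, map_mul, h5]
    · rintro ⟨c, rfl⟩
      exact ⟨iE ι c, by rw [map_mul, h5]⟩
  have hp := prime_q (q := q) hd.m3
  rw [Ideal.isPrime_iff]
  constructor
  · intro h
    rw [Ideal.eq_top_iff_one, ← map_one (iE ι), hdv] at h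
    exact hp.not_isUnit (isUnit_of_dvd_one h)
  · intro x y hxy
    obtain ⟨a, rfl⟩ := hj x
    obtain ⟨b, rfl⟩ := hj y
    rw [← map_mul, hdv] at hxy
    rw [hdv, hdv]
    exact hp.dvd_or_dvd hxy

section base
variable {N D : Type} [Field N] [NumberField N] [IsCyclotomicExtension {3} ℚ N] [Field D]
  [NumberField D] [Algebra N D] {d : ℤ}

/-- the values of the character -/
lemma XR_cd (hd : Dd d) [Fact d.natAbs.Prime] (ι : Pool.Agent.Y688.RR →+* 𝓞 N) [IsGalois N D]
    {r : D} (h2 : Module.finrank N D = 2)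
    (hr : r ^ 2 = d) {X : Gal(D/N) →* ℂˣ} (hX : ∀ σ, σ ≠ 1 → X σ = -1) {n : ℕ}
    (hi : IH n (fun I : Ideal (𝓞 N) => X0 3 I * XR X I)) (I : Ideal (𝓞 N)) :
    X0 3 I * XR X I = X0 3 I *
      ((quadraticChar (ZMod d.natAbs) ((Ideal.absNorm I : ℕ) : ZMod d.natAbs) : ℤ) : ℂ) := by
  have hN := pd_base hd N ι
  induction I using UniqueFactorizationMonoid.induction_on_prime with
  | h₁ =>
    show X0 3 (⊥ : Ideal (𝓞 N)) * _ = X0 3 (⊥ : Ideal (𝓞 N)) * _
    rw [X03_bot, zero_mul, zero_mul]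
  | h₂ I hI =>
    have h1 : I = ⊤ := by rwa [Ideal.isUnit_iff] at hI
    subst h1
    have h3 : X0 3 (⊤ : Ideal (𝓞 N)) = 1 := (X0_ih 3).top
    have h4 := hi.top
    rw [h4, h3, Ideal.absNorm_top, Nat.cast_one, map_one]
    norm_num
  | h₃ I P hI hP ih =>
    have h1 := hi.mul P I
    rw [h1, ih, (X0_ih 3).mul, map_mul]
    have h2' : XR X P =
        ((quadraticChar (ZMod d.natAbs) ((Ideal.absNorm P : ℕ) : ZMod d.natAbs) : ℤ) : ℂ) :=
      XR_d hd hN h2 hr hX ⟨P, Ideal.isPrime_of_prime hP, hP.ne_zero⟩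
    rw [h2', Nat.cast_mul, map_mul]
    push_cast
    ring

/-- **the order over the base field** -/
theorem base_ex (hd : Dd d) : ∃ m0 : ℕ, Odd m0 ∧ BaseOrd d m0 := by
  have hFq : Fact d.natAbs.Prime := ⟨hd.pr⟩
  have hq2 : d.natAbs ≠ 2 := by
    have := hd.m4
    omega
  have hq3 := hd.m3
  -- the function
  have hcyc : IsCyclotomicExtension {3} ℚ (CyclotomicField 3 ℚ) :=
    CyclotomicField.isCyclotomicExtension 3 ℚ
  obtain ⟨a0, ha0⟩ := exists_sqrt3 (F0 := CyclotomicField 3 ℚ)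
  obtain ⟨ι'⟩ := exists_iota (N := CyclotomicField 3 ℚ) ⟨(a0 - 1) / 2, by
    field_simp
    linear_combination ha0⟩
  let ι0 : Pool.Agent.Y688.RR →+* 𝓞 (CyclotomicField 3 ℚ) :=
    ι'.comp (RingEquiv.subringCongr RR_eis : Pool.Agent.Y688.RR →+* eis)
  obtain ⟨F5, hF1, hF2, hF3, A, hA, hFE⟩ := exists_Fq hq2 hq3 (CyclotomicField 3 ℚ) ι0
  have hfin : analyticOrderAt F5 1 ≠ ⊤ := by
    refine ord_fin (θ := thq d.natAbs) ?_ hF1 hF2
    unfold thq
    have e1 : (⊤ : Ideal eis) = sp 1 := Ideal.span_singleton_one.symm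
    have e2 : psi (⊤ : Ideal eis) = 1 := by
      rw [e1, psi_prim (by rw [sub_self]; exact Ideal.zero_mem _)]
      rfl
    have e3 : cq d.natAbs (⊤ : Ideal eis) = 1 := by
      unfold cq
      rw [Ideal.absNorm_top, Nat.cast_one, map_one, Int.cast_one]
    rw [e2, e3, one_mul]
  obtain ⟨m0, hm0⟩ := ENat.ne_top_iff_exists.1 hfin
  refine ⟨m0, odd_ord hF1 hA hm0 hFE, ?_⟩
  intro F D _ _ _ _ _ _ ι h2 ⟨r, hr⟩ f hf
  have hN := pd_base hd F ι
  have hgD : IsGalois F D := gal2' h2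
  have hU : Unr2 F := (gz3 F).two
  have hdF : Module.finrank ℚ F = 2 * 1 := fr3 F
  obtain ⟨f0, hf0⟩ := exists_VV ι hdF hU
  have hf01 := ne_of_base (base3 F ι) hf0
  obtain ⟨X, hX, hX2⟩ := exists_sgn (N := F) (K := D) h2
  obtain ⟨a, ha⟩ := exists_rt ι
  set n : ℕ := 3 * d.natAbs with hn
  have hnF : ((n : ℕ) : 𝓞 F) = 3 * ((d.natAbs : ℕ) : 𝓞 F) := by
    rw [hn]
    push_cast
    ring
  have hnr : ∀ w : HeightOneSpectrum (𝓞 D), Rm F w → ((n : ℕ) : 𝓞 F) ∈ (dn F w).asIdeal := by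
    rintro w ⟨σ, hσ, hin⟩
    have h5 : (d : 𝓞 D) ∈ w.asIdeal := by
      by_contra h5
      exact hσ (d_away hd hN h2 hr h5 hin)
    have h6 : (d : 𝓞 F) ∈ (dn F w).asIdeal := by
      show algebraMap (𝓞 F) (𝓞 D) d ∈ w.asIdeal
      rwa [map_intCast]
    rw [hnF]
    refine Ideal.mul_mem_left _ _ ?_
    rcases Int.natAbs_eq d with h | h
    · have : (d : 𝓞 F) = ((d.natAbs : ℕ) : 𝓞 F) := cst_pos h
      rwa [this] at h6
    · have : (d : 𝓞 F) = -((d.natAbs : ℕ) : 𝓞 F) := cst_neg h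
      rwa [this, Ideal.neg_mem_iff] at h6
  have hU' : ∀ v : HeightOneSpectrum (𝓞 F), (2 : 𝓞 F) ∈ v.asIdeal →
      v.valuation F 2 = WithZero.exp (-1 : ℤ) := fun v hv => hU v (by exact_mod_cast hv)
  have hodd : Odd n := by
    rw [hn]
    refine Odd.mul (by decide) ?_
    exact (hd.pr.eq_two_or_odd'.resolve_left hq2)
  have iX : IH n (fun I : Ideal (𝓞 F) => X0 3 I * XR X I) :=
    XR3_ih ha hdF hU' hX2 hodd ⟨d.natAbs, hn⟩ hnr
  obtain ⟨g, -, hg, -, -⟩ := core_gen2 F ι 1 hdF hU n _ _ iX iX hodd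
  have h2P : ∀ w : HeightOneSpectrum (𝓞 D), Rm F w → (2 : 𝓞 F) ∉ (dn F w).asIdeal := by
    intro w hw h2w
    obtain ⟨j, hj⟩ := hodd
    apply (dn F w).isPrime.ne_top
    rw [Ideal.eq_top_iff_one]
    have : (1 : 𝓞 F) = (n : 𝓞 F) - 2 * (j : 𝓞 F) := by
      rw [hj]
      push_cast
      ring
    rw [this]
    exact Ideal.sub_mem _ (hnr w hw) (Ideal.mul_mem_right _ _ h2w)
  have e1 := L_prod_ev h2 hX h2P hf hf0 iX hg
  have o1 : analyticOrderAt f 1 = analyticOrderAt g 1 := ord_mul_left hf0.an hf01 hg.an e1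
  have hG : VV ι (fun I : Ideal (𝓞 F) => X0 3 I * XR X I)
      (fun s => (starRingEnd ℂ) (F5 ((starRingEnd ℂ) s))) := by
    refine VV_of ι (fun J => ?_) hF1 hF2
    rw [XR_cd hd ι h2 hr hX iX, abs_eI]
    unfold thq
    rw [map_mul, cq_conj]
    by_cases hJ : IsCoprime J (sp (3 : eis))
    · have h3 : X0 3 (eI (iE ι) J) = 1 := by
        apply X0_pos
        have h4 := Pool.Agent.K7.H73.NM.cop_mod hJ
        rw [← abs_eI ι J] at h4
        have h5 : IsCoprime ((Ideal.absNorm (eI (iE ι) J) : ℕ) : ℤ) 3 := by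
          rw [Int.isCoprime_iff_gcd_eq_one]
          have : Nat.Coprime (Ideal.absNorm (eI (iE ι) J)) 3 := by
            rw [Nat.coprime_comm, Nat.Prime.coprime_iff_not_dvd Nat.prime_three]
            omega
          exact this
        obtain ⟨u, v, huv⟩ := h5
        rw [Ideal.isCoprime_iff_exists]
        refine ⟨(u : 𝓞 F) * ((Ideal.absNorm (eI (iE ι) J) : ℕ) : 𝓞 F), ?_, (v : 𝓞 F) * 3, ?_, ?_⟩
        · exact Ideal.mul_mem_left _ _ (Ideal.absNorm_mem _)
        · exact Ideal.mul_mem_left _ _ (by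
            rw [Nat.cast_ofNat]
            exact Ideal.mem_span_singleton_self _)
        · have := congrArg (fun z : ℤ => (z : 𝓞 F)) huv
          push_cast at this
          exact this
      rw [h3, one_mul, mul_comm]
      rfl
    · rw [(psi_zero_iff J).2 hJ, map_zero, mul_zero, zero_mul]
  have e2 : g =ᶠ[𝓝 1] (fun s => (starRingEnd ℂ) (F5 ((starRingEnd ℂ) s))) := VV_ev hg hG
  rw [o1, analyticOrderAt_congr e2]
  exact Pool.Agent.H98.B.ord_conj (hF1.analyticAt 1) hm0.symm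

end base

end Pool.Agent.H98.Q
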