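import Pool.Agent.H98.B.An2
import Pool.Agent.H98.Q.Base

/-!
# The analytic half for the fields of the family
-/

set_option autoImplicit false
set_option linter.unusedSectionVars false
set_option linter.unusedVariables false

open Complex NumberField IsDedekindDomain Filter Topology
open scoped PeriodPair nonZeroDivisors Classical

namespace Pool.Agent.H98.Q

open Pool.Agent.K7.H56
open Pool.Agent.K7.H56.P
open Pool.Agent.R430
open Pool.Agent.Y696 Pool.Agent.W192.HK Pool.Agent.TH936.CM H667R3
open Pool.Agent.TH936.PU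
open Pool.Agent.Y688 (NI HL euler v_sub_one v_root v_RR dn dn_surj)
open Pool.Agent.K7.H70.AS
open Pool.Agent.K7.H70.SM
open Pool.Agent.K7.H56.M
open Pool.Agent.W189.NF (aV eV)
open Pool.Agent.K7.H70.SE (GoodG hbd good3)
open Pool.Agent.K7.H73.L3 (gz3 ngs3 base_om3 fr3)
open Pool.Agent.K7.H70.TW (Sq Ed ep loc hbd_mul sg_apply LSeries_change exists_sq)
open Pool.Agent.H98.B

/-- the quadratic extension by the square root of `d` -/
lemma exists_qd {d : ℤ} (hd : Dd d) (T : Type) [Field T] [NumberField T] (hT : Pd d T) :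
    ∃ (D : Type) (_ : Field D) (_ : NumberField D) (_ : Algebra T D), Module.finrank T D = 2 ∧
      ∃ r : D, r ^ 2 = d := by
  have hirr : Irreducible (Polynomial.X ^ 2 - Polynomial.C (d : T)) := by
    rw [X_pow_sub_C_irreducible_iff_of_prime Nat.prime_two]
    exact fun b => d_ns hd hT b
  obtain ⟨r, hr⟩ := IsAlgClosed.exists_pow_nat_eq (d : AlgebraicClosure T) two_pos
  have hint : IsIntegral T r := Algebra.IsIntegral.isIntegral r
  have hmin : minpoly T r = Polynomial.X ^ 2 - Polynomial.C (d : T) := by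
    refine (minpoly.eq_of_irreducible_of_monic hirr ?_ (Polynomial.monic_X_pow_sub_C _ two_ne_zero)).symm
    rw [map_sub, map_pow, Polynomial.aeval_X, Polynomial.aeval_C, map_intCast, hr, sub_self]
  have h3 := IntermediateField.adjoin.finrank hint
  rw [hmin, Polynomial.natDegree_X_pow_sub_C] at h3
  have hfd : FiniteDimensional T (IntermediateField.adjoin T {r}) :=
    IntermediateField.adjoin.finiteDimensional hint
  have hnf : NumberField (IntermediateField.adjoin T {r}) := NumberField.of_module_finite T _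
  refine ⟨IntermediateField.adjoin T {r}, inferInstance, hnf, inferInstance, h3,
    ⟨r, IntermediateField.mem_adjoin_simple_self T r⟩, Subtype.ext ?_⟩
  exact hr

section fam
variable {d : ℤ} {m0 : ℕ} {M0 L : Type} [Field M0] [NumberField M0] [IsCyclotomicExtension {3} ℚ M0] [Field L]
  [NumberField L] [Algebra M0 L] [IsGalois M0 L]

/-- the order, for all the fields of the family -/
theorem tow' (hd : Dd d) (hm0 : 1 ≤ m0) (hB : BaseOrd d m0) (hr : ∃ r : ℕ, Module.finrank M0 L = 2 ^ r) (hU : Unr2 L) (hG : Gd M0 L)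
    {T : Type} [Field T] [NumberField T] [Algebra T L] {a : T} (ha : a ^ 2 = -3)
    (ι : Pool.Agent.Y688.RR →+* 𝓞 T) (hT : Pd d T) {D : Type} [Field D] [NumberField D] [Algebra T D]
    (hD : Module.finrank T D = 2) (h5 : ∃ ρ : D, ρ ^ 2 = d) {g : ℂ → ℂ}
    (hg : VV ((algebraMap (𝓞 T) (𝓞 D)).comp ι) (X0 1) g) : analyticOrderAt g 1 = m0 := by
  obtain ⟨r, hr⟩ := hr
  obtain ⟨f, hf⟩ := exists_alg (F0 := M0) (K := L) (M := T) ha
  let _ : Algebra M0 T := f.toAlgebra
  let φ : T →ₐ[M0] L :=
    { (algebraMap T L) with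
      commutes' := fun x => by
        show algebraMap T L (f x) = algebraMap M0 L x
        rw [← hf]
        rfl }
  have hst : IsScalarTower M0 T L := IsScalarTower.of_algebraMap_eq fun x => (φ.commutes x).symm
  have hdv : Module.finrank M0 T ∣ 2 ^ r := by
    rw [← hr, ← Module.finrank_mul_finrank M0 T L]
    exact Dvd.intro _ rfl
  obtain ⟨n, -, hn⟩ := (Nat.dvd_prime_pow Nat.prime_two).1 hdv
  obtain ⟨i, hi⟩ := iota_desc' (M := M0) (K := T) (gz3 M0).om ι
  exact tow hd hm0 hB i hr hU hG n T φ hn hT D hD h5 g (by rw [hi]; exact hg)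

/-- **the analytic half** -/
theorem an_main (hd : Dd d) (hm0 : 1 ≤ m0) (hB : BaseOrd d m0) (hr : ∃ r : ℕ, Module.finrank M0 L = 2 ^ r) (hU : Unr2 L) (hG : Gd M0 L)
    {k K : Type} [Field k] [NumberField k] [Field K] [NumberField K] [Algebra k K] [Algebra K L]
    {a : k} (ha : a ^ 2 = -3) (hK : Pd d K) {δ : k} (hd0 : δ ≠ 0) {e : K}
    (he : e ^ 2 = algebraMap k K δ) :
    (∀ v : HeightOneSpectrum (𝓞 k), HBd (aV (Ed ((d : k) * δ)) v) (eV (Ed ((d : k) * δ)) v) (nK v)) ∧
      Bsd (Ed ((d : k) * δ)) (if IsSquare δ then 2 * m0 else 0) := by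
  let _ : Algebra k L := ((algebraMap K L).comp (algebraMap k K)).toAlgebra
  have hst : IsScalarTower k K L := IsScalarTower.of_algebraMap_eq' rfl
  have hgood : GoodG k := good3 (M := M0) (K := L) hr hG
  have hNG : NG k := ngs3 (F := M0) (K := L) hr
  have h3 : Add3 k := add3_of_ng hNG
  obtain ⟨ι'⟩ := exists_iota (N := k) ⟨(a - 1) / 2, by
    field_simp
    linear_combination ha⟩
  set ι : Pool.Agent.Y688.RR →+* 𝓞 k :=
    ι'.comp (RingEquiv.subringCongr RR_eis : Pool.Agent.Y688.RR →+* eis) with hι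
  obtain ⟨r, hr'⟩ := hr
  obtain ⟨dk, hdk, hBk⟩ := base_om3 (F := M0) (K := L) hr' hU hG ha ι
  have hUk : Unr2 k := unr2_down (F := k) (K := L) hU
  have hUK : Unr2 K := unr2_down (F := K) (K := L) hU
  obtain ⟨f, hf⟩ := exists_VV ι hdk hUk
  have hf1 := ne_of_base hBk hf
  have hk5 : Pd d k := d_down (N := k) hd hK
  by_cases hsq : IsSquare δ
  · -- the field `k(√5)`
    obtain ⟨c, hc⟩ := hsq
    have hc0 : c ≠ 0 := by
      rintro rfl
      apply hd0
      rw [hc, mul_zero]
    obtain ⟨D, _, _, _, h2D, ρ, hρ⟩ := exists_qd hd k hk5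
    have hgD : IsGalois k D := gal2' h2D
    have hUD : Unr2 D := unr2_d hd hk5 h2D hρ hUk
    obtain ⟨fD, hfD⟩ := exists_VV ((algebraMap (𝓞 k) (𝓞 D)).comp ι) (d := 2 * dk) (by
      rw [← Module.finrank_mul_finrank ℚ k D, hdk, h2D]
      ring) hUD
    have oD := tow' hd hm0 hB ⟨r, hr'⟩ hU hG ha ι hk5 h2D ⟨ρ, hρ⟩ hfD
    have hSq : Sq ((d : k) * δ) (algebraMap k D c * ρ) := by
      refine ⟨mul_ne_zero (d_neF hd) hd0, ?_, ?_⟩
      · rw [mul_pow, hρ, hc, map_mul, map_mul, map_intCast]
        ring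
      · intro σ hσ
        refine d_one hd hk5 h2D hρ ?_
        rw [map_mul, AlgEquiv.commutes] at hσ
        exact mul_left_cancel₀ ((map_ne_zero _).2 hc0) hσ
    have h := an_twist hSq hgood hNG h3 hUD h2D hdk hf hf1 hfD (m := m0) oD
    rw [if_pos ⟨c, hc⟩]
    exact h
  · -- the biquadratic extension
    set E := IntermediateField.adjoin k {e} with hE
    have heE : e ∈ E := IntermediateField.mem_adjoin_simple_self k e
    set eE : E := ⟨e, heE⟩ with heEd
    have heE2 : eE ^ 2 = algebraMap k E δ := Subtype.ext he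
    have h2E : Module.finrank k E = 2 := by
      have hirr : Irreducible (Polynomial.X ^ 2 - Polynomial.C δ) := by
        rw [X_pow_sub_C_irreducible_iff_of_prime Nat.prime_two]
        intro b hb
        exact hsq ⟨b, by rw [← hb, pow_two]⟩
      have hmin : minpoly k e = Polynomial.X ^ 2 - Polynomial.C δ := by
        refine (minpoly.eq_of_irreducible_of_monic hirr ?_ (Polynomial.monic_X_pow_sub_C _ two_ne_zero)).symm
        rw [map_sub, map_pow, Polynomial.aeval_X, Polynomial.aeval_C, he, sub_self]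
      have hint : IsIntegral k e := Algebra.IsIntegral.isIntegral e
      have h3 := IntermediateField.adjoin.finrank hint
      rw [hmin, Polynomial.natDegree_X_pow_sub_C] at h3
      exact h3
    have hgE : IsGalois k E := gal2' h2E
    have hE5 : Pd d E := d_down (N := E) hd hK
    have hUE : Unr2 E := unr2_down (F := E) (K := K) hUK
    obtain ⟨M, _, _, _, h2M, ρ, hρ⟩ := exists_qd hd E hE5
    let _ : Algebra k M := ((algebraMap E M).comp (algebraMap k E)).toAlgebra
    have hstM : IsScalarTower k E M := IsScalarTower.of_algebraMap_eq' rfl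
    have hgM : IsGalois k M := d_gal (E := E) hd hE5 h2M hρ
    have hgEM : IsGalois E M := gal2' h2M
    have hc := d_comm (N := k) (E := E) (M := M) h2E hd hE5 h2M hρ
    have hUM : Unr2 M := unr2_d hd hE5 h2M hρ hUE
    set eM : M := algebraMap E M eE with heM
    have heM2 : eM ^ 2 = algebraMap k M δ := by
      rw [heM, ← map_pow, heE2, ← IsScalarTower.algebraMap_apply]
    have heM0 : eM ≠ 0 := by
      intro h0
      rw [h0, zero_pow two_ne_zero] at heM2
      exact hd0 ((map_eq_zero _).1 heM2.symm)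
    have hρ0 : ρ ≠ 0 := by
      rintro rfl
      rw [zero_pow two_ne_zero] at hρ
      exact d_ns hd hE5 0 (by rw [zero_pow two_ne_zero]; exact (map_eq_zero (algebraMap E M)).1 (by
        rw [map_intCast]; exact hρ.symm) |>.symm)
    have hns5 : ∀ b : k, b ^ 2 ≠ (d : k) * δ := by
      intro b hb
      apply d_ns hd hK (algebraMap k K b / e)
      have he0 : e ≠ 0 := by
        rintro rfl
        rw [zero_pow two_ne_zero] at he
        exact hd0 ((map_eq_zero _).1 he.symm)
      rw [div_pow, ← map_pow, hb, map_mul, ← he, map_intCast]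
      field_simp
    -- the field `k(√5)`
    have deg2 : ∀ (x : M) (y : k), x ^ 2 = algebraMap k M y → (∀ b : k, b ^ 2 ≠ y) →
        Module.finrank k (IntermediateField.adjoin k {x}) = 2 := by
      intro x y hx hy
      have hirr : Irreducible (Polynomial.X ^ 2 - Polynomial.C y) := by
        rw [X_pow_sub_C_irreducible_iff_of_prime Nat.prime_two]
        exact fun b => hy b
      have hmin : minpoly k x = Polynomial.X ^ 2 - Polynomial.C y := by
        refine (minpoly.eq_of_irreducible_of_monic hirr ?_ (Polynomial.monic_X_pow_sub_C _ two_ne_zero)).symm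
        rw [map_sub, map_pow, Polynomial.aeval_X, Polynomial.aeval_C, hx, sub_self]
      have hint : IsIntegral k x := Algebra.IsIntegral.isIntegral x
      have h3 := IntermediateField.adjoin.finrank hint
      rw [hmin, Polynomial.natDegree_X_pow_sub_C] at h3
      exact h3
    set D := IntermediateField.adjoin k {ρ} with hD
    have h2D : Module.finrank k D = 2 := deg2 ρ (d : k) (by rw [map_intCast, hρ]) (d_ns hd hk5)
    set ρD : D := ⟨ρ, IntermediateField.mem_adjoin_simple_self k ρ⟩ with hρD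
    have hρD2 : ρD ^ 2 = d := Subtype.ext (by
      show ρ ^ 2 = algebraMap D M d
      rw [map_intCast, hρ])
    -- the third field
    set θ : M := eM * ρ with hθ
    have hθ2 : θ ^ 2 = algebraMap k M ((d : k) * δ) := by
      rw [hθ, mul_pow, heM2, hρ, map_mul, map_intCast]
      ring
    obtain ⟨hgD3, hSq⟩ := exists_sq (mul_ne_zero (d_neF hd) hd0) hθ2
    set D3 := IntermediateField.adjoin k {θ} with hD3
    have h2D3 : Module.finrank k D3 = 2 := deg2 θ ((d : k) * δ) hθ2 hns5
    have hUD3 : Unr2 D3 := unr2_down (F := D3) (K := M) hUM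
    have hUD : Unr2 D := unr2_down (F := D) (K := M) hUM
    -- the functions
    obtain ⟨fD, hfD⟩ := exists_VV ((algebraMap (𝓞 k) (𝓞 D)).comp ι) (d := 2 * dk) (by
      rw [← Module.finrank_mul_finrank ℚ k D, hdk, h2D]
      ring) hUD
    obtain ⟨f3, hf3⟩ := exists_VV ((algebraMap (𝓞 k) (𝓞 D3)).comp ι) (d := 2 * dk) (by
      rw [← Module.finrank_mul_finrank ℚ k D3, hdk, h2D3]
      ring) hUD3
    have hdM : Module.finrank ℚ E = 2 * (2 * dk) := by
      rw [← Module.finrank_mul_finrank ℚ k E, hdk, h2E]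
      ring
    obtain ⟨fM, hfM⟩ := exists_VV ((algebraMap (𝓞 k) (𝓞 M)).comp ι) (d := 2 * (2 * dk)) (by
      rw [← Module.finrank_mul_finrank ℚ E M, hdM, h2M]
      ring) hUM
    have haE : (algebraMap k E a) ^ 2 = -3 := by rw [← map_pow, ha, map_neg, map_ofNat]
    obtain ⟨dE, hdE, hBE⟩ := base_om3 (F := M0) (K := L) hr' hU hG haE ((algebraMap (𝓞 k) (𝓞 E)).comp ι)
    obtain ⟨fE, hfE⟩ := exists_VV ((algebraMap (𝓞 k) (𝓞 E)).comp ι) hdE hUE
    have hfE1 := ne_of_base hBE hfE
    have oD := tow' hd hm0 hB ⟨r, hr'⟩ hU hG ha ι hk5 h2D ⟨ρD, hρD2⟩ hfD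
    have hcomp : (algebraMap (𝓞 E) (𝓞 M)).comp ((algebraMap (𝓞 k) (𝓞 E)).comp ι) =
        (algebraMap (𝓞 k) (𝓞 M)).comp ι := by
      rw [← RingHom.comp_assoc, ← IsScalarTower.algebraMap_eq (𝓞 k) (𝓞 E) (𝓞 M)]
    have oM := tow' hd hm0 hB ⟨r, hr'⟩ hU hG haE ((algebraMap (𝓞 k) (𝓞 E)).comp ι) hE5 h2M ⟨ρ, hρ⟩
      (g := fM) (by rw [hcomp]; exact hfM)
    -- the automorphisms
    have fxgen : ∀ (x : M) (σ : Gal(M/k)), Fx (N := k) (M := M) (IntermediateField.adjoin k {x}) σ ↔
        σ x = x := by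
      intro x σ
      constructor
      · intro h
        exact h ⟨x, IntermediateField.mem_adjoin_simple_self k x⟩
      · intro h y
        have h2' : IntermediateField.adjoin k {x} ≤ IntermediateField.fixedField (Subgroup.zpowers σ) := by
          rw [IntermediateField.adjoin_simple_le_iff]
          intro τ
          obtain ⟨τ, n, rfl⟩ := τ
          show (σ ^ n) x = x
          have h3 : ∀ j : ℕ, (σ ^ j) x = x := by
            intro j
            induction j with
            | zero => rfl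
            | succ j ih => rw [pow_succ, AlgEquiv.mul_apply, h, ih]
          obtain ⟨j, rfl | rfl⟩ := n.eq_nat_or_neg
          · rw [zpow_natCast]
            exact h3 j
          · rw [zpow_neg, zpow_natCast]
            show ((σ ^ j)⁻¹ : M ≃ₐ[k] M) x = x
            rw [AlgEquiv.aut_inv, AlgEquiv.symm_apply_eq, h3 j]
        exact (h2' y.2) ⟨σ, Subgroup.mem_zpowers σ⟩
    have fxE : ∀ σ : Gal(M/k), Fx (N := k) (M := M) E σ ↔ σ eM = eM := by
      intro σ
      constructor
      · intro h
        exact h eE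
      · intro h
        refine (fx_iff σ).1 ((exists_sq (K := K) hd0 he).2.gen _ ?_)
        apply (algebraMap E M).injective
        have h4 := AlgEquiv.restrictNormal_commutes σ E eE
        rw [← heM, h] at h4
        exact h4
    have hsgn : ∀ (x : M) (y : k), x ^ 2 = algebraMap k M y → ∀ σ : Gal(M/k), σ x = x ∨ σ x = -x := by
      intro x y hx σ
      have h6 : (σ x) ^ 2 = x ^ 2 := by rw [← map_pow, hx, AlgEquiv.commutes]
      exact sq_eq_sq_iff_eq_or_eq_neg.1 h6
    have hgen : ∀ σ : Gal(M/k), Fx (N := k) (M := M) E σ → Fx (N := k) (M := M) D σ → σ = 1 := by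
      intro σ h1 h2
      exact d_hgen hd hE5 h2M hρ h1 ((fxgen ρ σ).1 h2)
    have hZ : ∀ σ : Gal(M/k), Fx (N := k) (M := M) D3 σ ↔
        (Fx (N := k) (M := M) D σ ↔ Fx (N := k) (M := M) E σ) := by
      intro σ
      rw [fxgen θ σ, fxgen ρ σ, fxE σ, hθ, map_mul]
      have hn1 : eM ≠ -eM := fun h => heM0 (self_eq_neg.1 h)
      have hn2 : ρ ≠ -ρ := fun h => hρ0 (self_eq_neg.1 h)
      have hn3 : eM * ρ ≠ -(eM * ρ) := fun h => mul_ne_zero heM0 hρ0 (self_eq_neg.1 h)
      rcases hsgn eM δ heM2 σ with h1 | h1 <;>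
        rcases hsgn ρ (d : k) (by rw [map_intCast, hρ]) σ with h2 | h2 <;>
        rw [h1, h2] <;> simp [hn1.symm, hn2.symm, hn3.symm]
    have hb := biq (N := k) (E := E) (D := D) (D3 := D3) (M := M) hdk hUM h2E h2D h2D3 h2M hc hgen hZ
      hf hfE hfD hf3 hfM hf1 hfE1
    rw [oM, oD] at hb
    have o3 : analyticOrderAt f3 1 = ((0 : ℕ) : ℕ∞) := by
      generalize analyticOrderAt f3 1 = x at hb
      induction x using ENat.recTopCoe with
      | top => simp at hb
      | coe n =>
        have h1 : ((m0 : ℕ) : ℕ∞) = ((m0 + n : ℕ) : ℕ∞) := by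
          push_cast
          exact hb
        have h2 : m0 = m0 + n := by exact_mod_cast h1
        have h3 : n = 0 := by omega
        rw [h3]
    have h := an_twist hSq hgood hNG h3 hUD3 h2D3 hdk hf hf1 hf3 (m := 0) o3
    rw [if_neg hsq]
    exact h

end fam

end Pool.Agent.H98.Q
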