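import Pool.Agent.H98.Q.Five

/-!
# The tower
-/

set_option autoImplicit false
set_option linter.unusedSectionVars false
set_option linter.unusedVariables false

open Complex NumberField IsDedekindDomain Filter Topology
open scoped PeriodPair nonZeroDivisors

namespace Pool.Agent.H98.Q

open Pool.Agent.K7.H56
open Pool.Agent.K7.H56.P
open Pool.Agent.R430
open Pool.Agent.Y696 Pool.Agent.W192.HK Pool.Agent.TH936.CM H667R3
open Pool.Agent.TH936.PU
open Pool.Agent.Y688 (NI HL euler v_sub_one v_root v_RR dn dn_surj)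
open Pool.Agent.K7.H70.AS
open Pool.Agent.K7.H70.SM
open Pool.Agent.K7.H56.M
open Pool.Agent.K7.H73.L3 (gz3 base_om3)

/-- the order over the base field -/
def BaseOrd (d : ℤ) (m : ℕ) : Prop :=
  ∀ (F D : Type) [Field F] [NumberField F] [IsCyclotomicExtension {3} ℚ F] [Field D] [NumberField D]
    [Algebra F D] (ι : Pool.Agent.Y688.RR →+* 𝓞 F), Module.finrank F D = 2 →
    (∃ r : D, r ^ 2 = d) → ∀ f : ℂ → ℂ, VV ((algebraMap (𝓞 F) (𝓞 D)).comp ι) (X0 1) f →
      analyticOrderAt f 1 = m

section bi
variable {N E M : Type} [Field N] [NumberField N] [Field E] [NumberField E]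
  [Field M] [NumberField M] [Algebra N E] [Algebra E M] [Algebra N M] [IsScalarTower N E M]
  {d : ℤ}

lemma d_hgen (hd : Dd d) (hE : Pd d E) (h2M : Module.finrank E M = 2) {r : M} (hr : r ^ 2 = d)
    {σ : Gal(M/N)} (h1 : ∀ x : E, σ (algebraMap E M x) = algebraMap E M x) (h2 : σ r = r) : σ = 1 := by
  set τ : Gal(M/E) := AlgEquiv.ofRingEquiv (f := (σ : M ≃+* M)) h1 with hτ
  have h3 : τ = 1 := d_one hd hE h2M hr h2
  apply AlgEquiv.ext
  intro x
  have h4 := DFunLike.congr_fun h3 x
  exact h4

/-- the biquadratic extension is normal -/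
lemma d_gal [IsGalois N E] (hd : Dd d) (hE : Pd d E) (h2M : Module.finrank E M = 2) {r : M} (hr : r ^ 2 = d) :
    IsGalois N M := by
  have hN : Pd d N := d_down (N := N) hd hE
  set D := IntermediateField.adjoin N {r} with hD
  have hE' : Normal N (IsScalarTower.toAlgHom N E M).fieldRange := by
    have := IsGalois.to_normal (F := N) (E := E)
    exact Normal.of_algEquiv (AlgEquiv.ofInjectiveField (IsScalarTower.toAlgHom N E M))
  have hrD : r ∈ D := IntermediateField.mem_adjoin_simple_self N r
  have hD' : Normal N D := by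
    have hirr : Irreducible (Polynomial.X ^ 2 - Polynomial.C (d : N)) := by
      rw [X_pow_sub_C_irreducible_iff_of_prime Nat.prime_two]
      exact fun b => d_ns hd hN b
    have hmin : minpoly N r = Polynomial.X ^ 2 - Polynomial.C (d : N) := by
      refine (minpoly.eq_of_irreducible_of_monic hirr ?_ (Polynomial.monic_X_pow_sub_C _ two_ne_zero)).symm
      rw [map_sub, map_pow, Polynomial.aeval_X, Polynomial.aeval_C, map_intCast, hr, sub_self]
    have hint : IsIntegral N r := Algebra.IsIntegral.isIntegral r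
    have h3 := IntermediateField.adjoin.finrank hint
    rw [hmin, Polynomial.natDegree_X_pow_sub_C] at h3
    have hq : Algebra.IsQuadraticExtension N D := ⟨h3⟩
    infer_instance
  have htop : (IsScalarTower.toAlgHom N E M).fieldRange ⊔ D = ⊤ := by
    rw [eq_top_iff]
    intro x _
    have hx : x ∈ IntermediateField.adjoin E {r} := by
      rw [d_gen hd hE h2M hr]
      trivial
    set R := (IsScalarTower.toAlgHom N E M).fieldRange ⊔ D with hR
    have hRE : ∀ y : E, algebraMap E M y ∈ R := fun y =>
      (le_sup_left : (IsScalarTower.toAlgHom N E M).fieldRange ≤ R) ⟨y, rfl⟩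
    let R' : IntermediateField E M := { R with algebraMap_mem' := hRE }
    have h5 : IntermediateField.adjoin E {r} ≤ R' := by
      rw [IntermediateField.adjoin_simple_le_iff]
      exact (le_sup_right : D ≤ R) hrD
    exact h5 hx
  have h6 : Normal N (⊤ : IntermediateField N M) := by
    rw [← htop]
    infer_instance
  have h7 : Normal N M := Normal.of_algEquiv IntermediateField.topEquiv
  exact ⟨⟩

lemma d_comm [IsGalois N E] (h2 : Module.finrank N E = 2) (hd : Dd d) (hE : Pd d E)
    (h2M : Module.finrank E M = 2) {r : M} (hr : r ^ 2 = d) (σ τ : Gal(M/N)) : σ * τ = τ * σ := by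
  have hgal : IsGalois N M := d_gal hd hE h2M hr
  have h1 : (σ * τ) * (τ * σ)⁻¹ = 1 := by
    refine d_hgen hd hE h2M hr ?_ ?_
    · intro x
      have h3 : AlgEquiv.restrictNormalHom E (σ * τ * (τ * σ)⁻¹) = 1 := by
        rw [map_mul, map_inv, map_mul, map_mul, comm2 h2 (AlgEquiv.restrictNormalHom E σ), mul_inv_cancel]
      have h4 := AlgEquiv.restrictNormal_commutes (σ * τ * (τ * σ)⁻¹) E x
      rw [← h4]
      congr 1
      exact DFunLike.congr_fun h3 x
    · have h5 : ∀ ρ : Gal(M/N), ρ r = r ∨ ρ r = -r := by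
        intro ρ
        have h6 : (ρ r) ^ 2 = r ^ 2 := by rw [← map_pow, hr, map_intCast]
        exact sq_eq_sq_iff_eq_or_eq_neg.1 h6
      have h7 : ∀ ρ : Gal(M/N), ρ⁻¹ r = ρ r := by
        intro ρ
        rw [AlgEquiv.aut_inv, AlgEquiv.symm_apply_eq]
        rcases h5 ρ with h | h
        · rw [h, h]
        · rw [h, map_neg, h, neg_neg]
      rw [AlgEquiv.mul_apply, h7, AlgEquiv.mul_apply, AlgEquiv.mul_apply]
      rcases h5 σ with h | h <;> rcases h5 τ with h' | h' <;> simp [h, h']
  rwa [mul_inv_eq_one] at h1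

end bi

end Pool.Agent.H98.Q
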