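import Pool.Agent.H98.B.Tow2
import Pool.Agent.H98.Q.Tow

/-!
# The induction along the tower
-/

set_option autoImplicit false
set_option linter.unusedSectionVars false
set_option linter.unusedVariables false

open Complex NumberField IsDedekindDomain Filter Topology
open scoped PeriodPair nonZeroDivisors

namespace Pool.Agent.H98.Q

open Pool.Agent.K7.H56
open Pool.Agent.K7.H56.P
open Pool.Agent.R430
open Pool.Agent.Y696 Pool.Agent.W192.HK Pool.Agent.TH936.CM H667R3
open Pool.Agent.TH936.PU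
open Pool.Agent.Y688 (NI HL euler v_sub_one v_root v_RR dn dn_surj)
open Pool.Agent.K7.H70.AS
open Pool.Agent.K7.H70.SM
open Pool.Agent.K7.H56.M
open Pool.Agent.K7.H73.L3 (gz3 base_om3)
open Pool.Agent.H98.B



/-- **The order along the tower.** -/
theorem tow {d : ℤ} (hd : Dd d) {m0 : ℕ} (hm0 : 1 ≤ m0) (hB : BaseOrd d m0) {F K : Type} [Field F] [NumberField F] [IsCyclotomicExtension {3} ℚ F]
    [Field K] [NumberField K] [Algebra F K] [IsGalois F K] (ι : Pool.Agent.Y688.RR →+* 𝓞 F) {r : ℕ}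
    (hr : Module.finrank F K = 2 ^ r) (hU : Unr2 K) (hG : Gd F K) (n : ℕ) :
    ∀ (T : Type) [Field T] [NumberField T] [Algebra F T], (T →ₐ[F] K) →
      Module.finrank F T = 2 ^ n → Pd d T → ∀ (D : Type) [Field D] [NumberField D] [Algebra T D],
      Module.finrank T D = 2 → (∃ ρ : D, ρ ^ 2 = d) → ∀ g : ℂ → ℂ,
      VV ((algebraMap (𝓞 T) (𝓞 D)).comp ((algebraMap (𝓞 F) (𝓞 T)).comp ι)) (X0 1) g →
        analyticOrderAt g 1 = m0 := by
  induction n with
  | zero =>
    intro T _ _ _ φ h1 _ D _ _ _ hD hρ g hg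
    have := cyc_one (F := F) (T := T) h1
    exact hB T D _ hD hρ g hg
  | succ m ih =>
    intro T _ _ _ φ h1 hT D _ _ _ hD ⟨ρ, hρ⟩ g hg
    obtain ⟨N, h2, h3⟩ := exists_mid (K := K) h1 hr φ
    let _ : Algebra T K := φ.toRingHom.toAlgebra
    have hFTK : IsScalarTower F T K :=
      IsScalarTower.of_algebraMap_eq fun x => (φ.commutes x).symm
    have hGT : Gd F T := gd_bot (K := K) hG
    have hUT : Unr2 T := unr2_down (F := T) (K := K) hU
    let _ : Algebra N K := (φ.comp N.val).toRingHom.toAlgebra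
    have hFNK : IsScalarTower F N K :=
      IsScalarTower.of_algebraMap_eq fun x => ((φ.comp N.val).commutes x).symm
    have hNC : NC F N := nc_of_tower (K := K) hr
    have hGN : Gd N T := gd_top (F := F) hNC hGT
    have hUN : Unr2 N := unr2_down (F := N) (K := K) hU
    have hgal : IsGalois N T := gal2' h3
    have hN5 : Pd d N := d_down (N := N) hd hT
    have hgalM : IsGalois N D := d_gal (E := T) hd hT hD hρ
    have hc := d_comm (N := N) (E := T) (M := D) h3 hd hT hD hρ
    set B := IntermediateField.adjoin N {ρ} with hBdef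
    have hρB : ρ ∈ B := IntermediateField.mem_adjoin_simple_self N ρ
    have h2B : Module.finrank N B = 2 := by
      have hirr : Irreducible (Polynomial.X ^ 2 - Polynomial.C (d : N)) := by
        rw [X_pow_sub_C_irreducible_iff_of_prime Nat.prime_two]
        exact fun b => d_ns hd hN5 b
      have hmin : minpoly N ρ = Polynomial.X ^ 2 - Polynomial.C (d : N) := by
        refine (minpoly.eq_of_irreducible_of_monic hirr ?_ (Polynomial.monic_X_pow_sub_C _ two_ne_zero)).symm
        rw [map_sub, map_pow, Polynomial.aeval_X, Polynomial.aeval_C, map_intCast, hρ, sub_self]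
      have hint : IsIntegral N ρ := Algebra.IsIntegral.isIntegral ρ
      have h3 := IntermediateField.adjoin.finrank hint
      rw [hmin, Polynomial.natDegree_X_pow_sub_C] at h3
      exact h3
    set ρB : B := ⟨ρ, hρB⟩ with hρBd
    have hρB2 : ρB ^ 2 = d := Subtype.ext (by
      show ρ ^ 2 = algebraMap B D d
      rw [map_intCast, hρ])
    -- the functions
    set ιN := (algebraMap (𝓞 F) (𝓞 N)).comp ι with hιN
    obtain ⟨aN, haN⟩ := exists_rt ιN
    obtain ⟨aT, haT⟩ := exists_rt ((algebraMap (𝓞 N) (𝓞 T)).comp ιN)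
    obtain ⟨dN, hdN, hBN⟩ := base_om3 (F := F) hr hU hG haN ιN
    obtain ⟨dT, hdT, hBT⟩ := base_om3 (F := F) hr hU hG haT ((algebraMap (𝓞 N) (𝓞 T)).comp ιN)
    obtain ⟨f, hf⟩ := exists_VV ιN hdN hUN
    obtain ⟨fT, hfT⟩ := exists_VV ((algebraMap (𝓞 N) (𝓞 T)).comp ιN) hdT hUT
    have hgTD : IsGalois T D := gal2' hD
    have hUD : Unr2 D := unr2_d hd hT hD hρ hUT
    have hgB : IsGalois N B := gal2' h2B
    have hUB : Unr2 B := unr2_d hd hN5 h2B hρB2 hUN
    obtain ⟨fB, hfB⟩ := exists_VV ((algebraMap (𝓞 N) (𝓞 B)).comp ιN) (d := 2 * dN) (by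
      rw [← Module.finrank_mul_finrank ℚ N B, hdN, h2B]
      ring) hUB
    have oB := ih N (φ.comp N.val) h2 hN5 B h2B ⟨ρB, hρB2⟩ fB hfB
    have hfB1 : fB 1 = 0 := by
      by_contra hne
      have h5 := hfB.an.analyticOrderAt_eq_zero.2 hne
      rw [oB] at h5
      have h6 : m0 = 0 := by exact_mod_cast h5
      omega
    have hcomp : (algebraMap (𝓞 T) (𝓞 D)).comp ((algebraMap (𝓞 F) (𝓞 T)).comp ι) =
        (algebraMap (𝓞 N) (𝓞 D)).comp ιN := by
      have e1 : (algebraMap (𝓞 F) (𝓞 T)) = (algebraMap (𝓞 N) (𝓞 T)).comp (algebraMap (𝓞 F) (𝓞 N)) :=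
        rfl
      have e2 : (algebraMap (𝓞 N) (𝓞 D)) = (algebraMap (𝓞 T) (𝓞 D)).comp (algebraMap (𝓞 N) (𝓞 T)) :=
        rfl
      rw [e1, e2, hιN]
      rfl
    obtain ⟨V, hV⟩ := exists_over_two
    obtain ⟨Ω, hΩ, hC⟩ := exists_cur
    have hL := HL_of_Cur hC
    obtain ⟨x0, hx0⟩ := bad_pd hd hN5
    have hst2 := step (N := N) (E := T) (D := B) (M := D) hdN hUD h3 h2B hD hc
      (fun σ h5 h6 => d_hgen hd hT hD hρ h5 (h6 ρB)) (p := pd hd hN5) (three_pd hd hN5) (x0 := x0)
      hx0 (d_ram hd hN5 h2B hρB2) ?_ ?_ ?_ hf hfT hfB (by rw [← hcomp]; exact hg) hL hV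
      (hBN f hf _ _ hC _ V.valuation hV) (ne_of_base hBT hfT) hfB1
    · rw [hst2, oB]
    · intro w w' hw hw'
      have h5 : ∀ w : HeightOneSpectrum (𝓞 T), w.asIdeal.under (𝓞 N) = (pd hd hN5).asIdeal →
          (d : 𝓞 T) ∈ w.asIdeal := by
        intro w hw
        have h6 : (d : 𝓞 N) ∈ w.asIdeal.under (𝓞 N) := by
          rw [hw]
          exact (mem_pd hd hN5).2 dvd_rfl
        have h7 : algebraMap (𝓞 N) (𝓞 T) d ∈ w.asIdeal := h6
        rwa [map_intCast] at h7
      rw [pd_uniq hd hT (h5 w hw), pd_uniq hd hT (h5 w' hw')]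
    · intro w σ hw hσ
      have h6 : (d : 𝓞 N) ∈ w.asIdeal.under (𝓞 N) := by
        rw [hw]
        exact (mem_pd hd hN5).2 dvd_rfl
      have h7 : algebraMap (𝓞 N) (𝓞 T) d ∈ w.asIdeal := h6
      rw [map_intCast] at h7
      exact pd_unr hd hT h7 hσ
    · intro w ⟨σ, hσ, hin⟩ hPp h3P x
      -- the restriction to `B` is trivial
      have h5w : (d : 𝓞 D) ∉ w.asIdeal := by
        intro h5
        apply hPp
        apply pd_uniq hd hN5
        show algebraMap (𝓞 N) (𝓞 D) d ∈ w.asIdeal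
        rwa [map_intCast]
      have h5wB : (d : 𝓞 B) ∉ (dn B w).asIdeal := by
        intro h5
        apply h5w
        have h6 : algebraMap (𝓞 B) (𝓞 D) d ∈ w.asIdeal := h5
        rwa [map_intCast] at h6
      have hresB : (AlgEquiv.restrictNormalHom B σ : Gal(B/N)) = 1 := by
        refine d_away hd hN5 h2B hρB2 h5wB fun y => ?_
        show _ ∈ w.asIdeal.under (𝓞 B)
        rw [Ideal.under_def, Ideal.mem_comap, map_sub, restr_smul]
        exact hin _
      have hresT : (AlgEquiv.restrictNormalHom T σ : Gal(T/N)) ≠ 1 := by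
        intro h1
        apply hσ
        refine d_hgen hd hT hD hρ ?_ ((fx_iff σ).1 hresB ρB)
        intro x
        exact (fx_iff σ).1 h1 x
      have hRT : Rm N (dn T w) := ⟨_, hresT, fun y => by
        show _ ∈ w.asIdeal.under (𝓞 T)
        rw [Ideal.under_def, Ideal.mem_comap, map_sub, restr_smul]
        exact hin _⟩
      have hdn : dn N (dn T w) = dn N w := by
        apply HeightOneSpectrum.ext
        show (w.asIdeal.under (𝓞 T)).under (𝓞 N) = w.asIdeal.under (𝓞 N)
        rw [Ideal.under_under]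
      rw [← hdn] at h3P ⊢
      exact gd_rm hGN hRT h3P x

end Pool.Agent.H98.Q
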