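import Pool.Agent.H98.B.Base2
import Pool.Agent.H98.Q.Tow2

/-!
# The quadratic character of prime conductor on the Eisenstein integers
-/

set_option autoImplicit false
set_option linter.unusedSectionVars false
set_option linter.unusedVariables false

open Complex

namespace Pool.Agent.H98.Q

open Pool.Agent.W192.HK Pool.Agent.TH936.AC Pool.Agent.TH936.AD
open Pool.Agent.Y696
open Pool.Agent.H98.B (hbasic abar hfp abs_nm nrmA qp_eis cs_psi)

section ff
variable {q : ℕ} [hF : Fact q.Prime]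

lemma two_ne (h2 : q ≠ 2) : (2 : ZMod q) ≠ 0 := by
  intro h
  have h3 : (((2 : ℕ) : ℕ) : ZMod q) = 0 := by exact_mod_cast h
  rw [ZMod.natCast_eq_zero_iff] at h3
  exact h2 ((Nat.prime_dvd_prime_iff_eq hF.out Nat.prime_two).1 h3)

lemma three_ne (h3 : q % 3 = 2) : (3 : ZMod q) ≠ 0 := by
  intro h
  have h4 : (((3 : ℕ) : ℕ) : ZMod q) = 0 := by exact_mod_cast h
  rw [ZMod.natCast_eq_zero_iff] at h4
  have := (Nat.prime_dvd_prime_iff_eq hF.out Nat.prime_three).1 h4
  omega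

/-- the cube map is injective -/
lemma cube_inj (h3 : q % 3 = 2) {a b : ZMod q} (h : a ^ 3 = b ^ 3) : a = b := by
  obtain ⟨k, hk⟩ : ∃ k, q = 3 * k + 2 := ⟨q / 3, by omega⟩
  have key : ∀ a : ZMod q, (a ^ 3) ^ (2 * k + 1) = a := by
    intro a
    by_cases ha : a = 0
    · rw [ha, zero_pow three_ne_zero, zero_pow (by omega)]
    · rw [← pow_mul]
      have e : 3 * (2 * k + 1) = (q - 1) + (q - 1) + 1 := by omega
      rw [e, pow_add, pow_add, ZMod.pow_card_sub_one_eq_one ha]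
      ring
  rw [← key a, ← key b, h]

lemma inertq (h3 : q % 3 = 2) {x y : ZMod q} (h : x ^ 2 - x * y + y ^ 2 = 0) : x = 0 ∧ y = 0 := by
  have h1 : x ^ 3 = (-y) ^ 3 := by linear_combination (x + y) * h
  have h2 := cube_inj h3 h1
  subst h2
  have h4 : 3 * (y * y) = 0 := by linear_combination h
  have h5 : y = 0 := by
    rcases mul_eq_zero.1 h4 with h5 | h5
    · exact absurd h5 (three_ne h3)
    · exact mul_self_eq_zero.1 h5
  rw [h5]
  simp

/-- the norm form is universal -/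
lemma univ_form (h2 : q ≠ 2) (h3 : q % 3 = 2) (u : ZMod q) : ∃ x y : ZMod q, x ^ 2 - x * y + y ^ 2 = u := by
  have h20 := two_ne (q := q) h2
  have h30 := three_ne (q := q) h3
  have hodd : Fintype.card (ZMod q) % 2 = 1 := by
    rw [ZMod.card]
    rcases hF.out.eq_two_or_odd with h | h
    · exact absurd h h2
    · exact h
  obtain ⟨a, b, hab⟩ := FiniteField.exists_root_sum_quadratic
    (f := Polynomial.C 1 * Polynomial.X ^ 2 + Polynomial.C 0 * Polynomial.X + Polynomial.C (-4 * u))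
    (g := Polynomial.C 3 * Polynomial.X ^ 2 + Polynomial.C 0 * Polynomial.X + Polynomial.C 0)
    (Polynomial.degree_quadratic one_ne_zero) (Polynomial.degree_quadratic h30) hodd
  simp only [Polynomial.eval_add, Polynomial.eval_mul, Polynomial.eval_pow, Polynomial.eval_C,
    Polynomial.eval_X] at hab
  refine ⟨(a + b) / 2, b, ?_⟩
  field_simp
  linear_combination hab

/-- the character -/
noncomputable def cq (q : ℕ) [Fact q.Prime] (J : Ideal eis) : ℂ :=
  ((quadraticChar (ZMod q) ((Ideal.absNorm J : ℕ) : ZMod q) : ℤ) : ℂ)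

lemma cq_mul (I J : Ideal eis) : cq q (I * J) = cq q I * cq q J := by
  unfold cq
  rw [map_mul]
  push_cast
  rw [map_mul]
  push_cast
  rfl

lemma nrmZ (x y : ℤ) : ((Ideal.absNorm (sp ((x : eis) + y * omr) : Ideal eis) : ℕ) : ZMod q) =
    ((x : ZMod q) ^ 2 - x * y + (y : ZMod q) ^ 2) := by
  have h := congrArg (fun z : ℤ => (z : ZMod q)) (nrmA x y)
  push_cast at h
  exact h

lemma cq_eq (x y : ℤ) : cq q (sp ((x : eis) + y * omr)) =
    ((quadraticChar (ZMod q) ((x : ZMod q) ^ 2 - x * y + (y : ZMod q) ^ 2) : ℤ) : ℂ) := by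
  unfold cq
  rw [nrmZ]

lemma q_dvd (h3 : q % 3 = 2) {α : eis} (h : ((Ideal.absNorm (sp α : Ideal eis) : ℕ) : ZMod q) = 0) :
    (q : eis) ∣ α := by
  obtain ⟨x, y, rfl⟩ := eis_rep α
  rw [nrmZ] at h
  obtain ⟨hx, hy⟩ := inertq h3 h
  rw [ZMod.intCast_zmod_eq_zero_iff_dvd] at hx hy
  obtain ⟨a, rfl⟩ := hx
  obtain ⟨b, rfl⟩ := hy
  exact ⟨(a : eis) + b * omr, by push_cast; ring⟩

lemma abs_q_mul (α : eis) : ((Ideal.absNorm (sp ((q : eis) * α) : Ideal eis) : ℕ) : ZMod q) = 0 := by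
  obtain ⟨x, y, rfl⟩ := eis_rep α
  have e : (q : eis) * ((x : eis) + y * omr) = ((q * x : ℤ) : eis) + ((q * y : ℤ) : eis) * omr := by
    push_cast
    ring
  rw [e, nrmZ]
  push_cast
  rw [CharP.cast_eq_zero]
  ring

lemma copq (h3 : q % 3 = 2) {α : eis} :
    IsCoprime α (q : eis) ↔ ((Ideal.absNorm (sp α : Ideal eis) : ℕ) : ZMod q) ≠ 0 := by
  constructor
  · intro h h0
    obtain ⟨β, hβ⟩ := q_dvd h3 h0
    obtain ⟨a, b, hab⟩ := h
    have h1 : (q : eis) * (a * β + b) = 1 := by rw [← hab, hβ]; ring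
    have h2 := abs_q_mul (q := q) (a * β + b)
    rw [h1] at h2
    have h3 : (sp (1 : eis)) = ⊤ := Ideal.span_singleton_one
    rw [h3, Ideal.absNorm_top, Nat.cast_one] at h2
    exact one_ne_zero h2
  · intro h
    set n : ℕ := Ideal.absNorm (sp α : Ideal eis) with hn
    have h1 : α * cj α = (n : eis) := by
      apply coe_inj'
      rw [cj_mul_coe]
      have h2 := (hbasic eis om qr).2.2.2.2.1 α
      rw [← h2, ← abs_nm]
      push_cast
      rfl
    have h2 : IsCoprime (n : ℤ) q := by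
      have h3 : Nat.Coprime n q := by
        rw [Nat.coprime_comm, Nat.Prime.coprime_iff_not_dvd hF.out]
        intro h4
        exact h ((ZMod.natCast_eq_zero_iff n q).2 h4)
      exact Nat.isCoprime_iff_coprime.2 h3
    have h3 : IsCoprime ((n : ℤ) : eis) (((q : ℕ) : ℤ) : eis) := h2.map (Int.castRingHom eis)
    have h4 : IsCoprime (α * cj α) (q : eis) := by
      rw [h1]
      exact_mod_cast h3
    exact h4.of_mul_left_left

lemma copqI (h3 : q % 3 = 2) {I : Ideal eis} : IsCoprime I (sp ((q : ℕ) : eis)) ↔ cq q I ≠ 0 := by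
  obtain ⟨α, rfl⟩ : ∃ α : eis, I = sp α :=
    ⟨_, (Submodule.IsPrincipal.span_singleton_generator I).symm⟩
  rw [Ideal.isCoprime_span_singleton_iff, copq h3]
  unfold cq
  rw [not_iff_not, Int.cast_eq_zero, quadraticChar_eq_zero_iff]

lemma cq_bot : cq q ⊥ = 0 := by
  unfold cq
  rw [Ideal.absNorm_bot, Nat.cast_zero, quadraticChar_zero, Int.cast_zero]

lemma cq_one {α : eis} (h : α - 1 ∈ (sp ((q : ℕ) : eis) : Ideal eis)) : cq q (sp α) = 1 := by
  rw [Ideal.mem_span_singleton] at h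
  obtain ⟨β, hβ⟩ := h
  obtain ⟨x, y, rfl⟩ := eis_rep β
  have e : α = ((1 + q * x : ℤ) : eis) + ((q * y : ℤ) : eis) * omr := by
    push_cast at hβ ⊢
    linear_combination hβ
  rw [e, cq_eq]
  push_cast
  rw [CharP.cast_eq_zero]
  have e2 : ((1 : ZMod q) + 0 * (x : ZMod q)) ^ 2 - (1 + 0 * (x : ZMod q)) * (0 * (y : ZMod q)) +
      (0 * (y : ZMod q)) ^ 2 = 1 := by ring
  rw [e2, map_one, Int.cast_one]

/-- a non-residue -/
lemma exists_neg (h2 : q ≠ 2) (h3 : q % 3 = 2) : ∃ α : eis, cq q (sp α) = -1 := by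
  have hch : ringChar (ZMod q) ≠ 2 := by
    rw [ZMod.ringChar_zmod_n]
    exact h2
  obtain ⟨u, hu⟩ := quadraticChar_exists_neg_one hch
  obtain ⟨x, y, hxy⟩ := univ_form h2 h3 u
  obtain ⟨x', rfl⟩ := ZMod.intCast_surjective x
  obtain ⟨y', rfl⟩ := ZMod.intCast_surjective y
  refine ⟨(x' : eis) + y' * omr, ?_⟩
  rw [cq_eq, hxy, hu]
  norm_num

lemma prime_q (h3 : q % 3 = 2) : Prime (q : eis) := by
  refine ⟨Nat.cast_ne_zero.2 hF.out.ne_zero, ?_, ?_⟩
  · intro h
    have h1 : IsCoprime (q : eis) (q : eis) := isCoprime_self.2 h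
    rw [copq h3] at h1
    apply h1
    have := abs_q_mul (q := q) 1
    rwa [mul_one] at this
  · intro a b hab
    by_contra hcon
    rw [not_or] at hcon
    have ha : ((Ideal.absNorm (sp a : Ideal eis) : ℕ) : ZMod q) ≠ 0 := fun h => hcon.1 (q_dvd h3 h)
    have hb : ((Ideal.absNorm (sp b : Ideal eis) : ℕ) : ZMod q) ≠ 0 := fun h => hcon.2 (q_dvd h3 h)
    obtain ⟨c, hc⟩ := hab
    have h1 := abs_q_mul (q := q) c
    have h2 : (sp (a * b) : Ideal eis) = sp a * sp b :=
      (Ideal.span_singleton_mul_span_singleton a b).symm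
    rw [← hc, h2, map_mul] at h1
    push_cast at h1
    rcases mul_eq_zero.1 h1 with h | h
    · exact ha h
    · exact hb h

theorem hc_cq (h2 : q ≠ 2) (h3 : q % 3 = 2) : HC 0 (sp ((q : ℕ) : eis)) (cq q) := by
  have hq0 : ((q : ℕ) : eis) ≠ 0 := Nat.cast_ne_zero.2 hF.out.ne_zero
  refine ⟨?_, cq_mul, ?_, ?_, ?_⟩
  · rw [Ne, Ideal.span_singleton_eq_bot]
    exact hq0
  · intro I
    rw [copqI h3, not_not]
    constructor
    · exact Or.inr
    · rintro (rfl | h)
      · exact cq_bot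
      · exact h
  · intro α _ hα
    rw [cq_one hα, pow_zero]
  · intro q' hq'
    obtain ⟨d, rfl⟩ : ∃ d : eis, q' = sp d :=
      ⟨_, (Submodule.IsPrincipal.span_singleton_generator q').symm⟩
    have h1 : d ∣ (q : eis) := Ideal.span_singleton_le_span_singleton.1 hq'.le
    have h2' : ¬ (q : eis) ∣ d := fun h => by
      have := Ideal.span_singleton_le_span_singleton.2 h
      exact absurd (le_antisymm hq'.le this) hq'.ne
    have h3' : IsCoprime d (q : eis) := by
      rw [copq h3]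
      intro h
      exact h2' (q_dvd h3 h)
    have h4 : IsUnit d := h3'.isUnit_of_dvd' dvd_rfl h1
    have h5 : sp d = ⊤ := Ideal.span_singleton_eq_top.2 h4
    obtain ⟨α, h7⟩ := exists_neg (q := q) h2 h3
    refine ⟨α, ?_, ?_, ?_, ?_⟩
    · intro h0
      rw [h0] at h7
      have : (sp (0 : eis)) = ⊥ := by simp
      rw [this, cq_bot] at h7
      norm_num at h7
    · rw [h5]
      trivial
    · rw [copqI h3, h7]
      norm_num
    · rw [h7, pow_zero]
      norm_num

lemma cq_val (I : Ideal eis) : cq q I = 0 ∨ cq q I = 1 ∨ cq q I = -1 := by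
  unfold cq
  by_cases h0 : ((Ideal.absNorm I : ℕ) : ZMod q) = 0
  · left
    rw [h0, quadraticChar_zero, Int.cast_zero]
  · rcases quadraticChar_dichotomy h0 with h | h <;> rw [h] <;> simp

lemma cq_conj (I : Ideal eis) : (starRingEnd ℂ) (cq q I) = cq q I := by
  unfold cq
  rw [map_intCast]

lemma cq_bar (I : Ideal eis) : cq q (bar I) = cq q I := by
  have h := (abar eis om ⟨qr, eis_pid⟩).2.2.2.2.2.2.2.1 I
  unfold cq
  have h1 : Ideal.absNorm (bar I) = Ideal.absNorm I := by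
    have : ((Ideal.absNorm (bar I) : ℕ) : ℝ) = ((Ideal.absNorm I : ℕ) : ℝ) := by
      rw [abs_nm, abs_nm, h]
    exact_mod_cast this
  rw [h1]

lemma cq_int {m : ℤ} (hm : (m : ZMod q) ≠ 0) : cq q (sp ((m : ℤ) : eis)) = 1 := by
  have e : ((m : ℤ) : eis) = ((m : ℤ) : eis) + ((0 : ℤ) : eis) * omr := by push_cast; ring
  rw [e, cq_eq]
  have e2 : ((m : ZMod q)) ^ 2 - (m : ZMod q) * ((0 : ℤ) : ZMod q) + ((0 : ℤ) : ZMod q) ^ 2 =
      (m : ZMod q) ^ 2 := by
    push_cast
    ring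
  rw [e2, quadraticChar_sq_one' hm, Int.cast_one]

theorem rg_cq (h2 : q ≠ 2) (h3 : q % 3 = 2) : RG q (cq q) := by
  have hc := hc_cq (q := q) h2 h3
  refine ⟨hF.out, ⟨hc.ne, hc.mul, hc.zero, ?_⟩, ?_⟩
  · intro α h0 h1
    exact cq_one h1
  · intro m hm
    have e : ((m : ℕ) : eis) = ((m : ℤ) : eis) := by push_cast; rfl
    rw [e]
    refine cq_int ?_
    rw [Int.cast_natCast, Ne, ZMod.natCast_eq_zero_iff]
    intro h
    have := Nat.Coprime.eq_one_of_dvd hm.symm h
    exact hF.out.one_lt.ne' this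

theorem od_cq (h2 : q ≠ 2) (h3 : q % 3 = 2) : Od (cq q) 2 := by
  refine ⟨by norm_num, ?_, ?_⟩
  · intro I hI
    rcases cq_val (q := q) I with h | h | h
    · exact absurd h hI
    · rw [h]; norm_num
    · rw [h]; norm_num
  · intro n hn h
    by_contra hlt
    have h1 : n = 1 := by omega
    subst h1
    obtain ⟨α, h7⟩ := exists_neg (q := q) h2 h3
    have h2 := h _ (by rw [h7]; norm_num)
    rw [h7, pow_one] at h2
    norm_num at h2

/-! ### the character of the curve -/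

/-- the twisted character -/
noncomputable def thq (q : ℕ) [Fact q.Prime] (J : Ideal eis) : ℂ := psi J * cq q J

lemma cop3q (h3 : q % 3 = 2) : IsCoprime (sp (3 : eis)) (sp ((q : ℕ) : eis)) := by
  rw [Ideal.isCoprime_span_singleton_iff]
  obtain ⟨k, hk⟩ : ∃ k, q = 3 * k + 2 := ⟨q / 3, by omega⟩
  refine ⟨(k : eis) + 1, -1, ?_⟩
  rw [hk]
  push_cast
  ring

theorem hc_thq (h2 : q ≠ 2) (h3 : q % 3 = 2) :
    HC 1 (sp (3 : eis) * sp ((q : ℕ) : eis)) (thq q) :=
  Pool.Agent.W29.HK.h_prod hbasic hfp eis om qr 1 _ _ psi (cq q) hc_psi (hc_cq h2 h3) (cop3q h3)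

theorem cs_thq : CS (thq q) := by
  intro I
  unfold thq
  rw [cs_psi I, cq_bar, map_mul, cq_conj]

lemma psi_q (h3 : q % 3 = 2) : psi (sp ((q : ℕ) : eis)) = -(q : ℂ) := by
  have h1 : (sp ((q : ℕ) : eis) : Ideal eis) = sp (-(q : eis)) :=
    (Ideal.span_singleton_neg (q : eis)).symm
  rw [h1, psi_prim]
  · have h5 : (((q : ℕ) : eis) : ℂ) = (q : ℂ) := by push_cast; rfl
    push_cast
    rfl
  · rw [Ideal.mem_span_singleton]
    obtain ⟨k, hk⟩ : ∃ k, q = 3 * k + 2 := ⟨q / 3, by omega⟩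
    refine ⟨-(k : eis) - 1, ?_⟩
    rw [hk]
    push_cast
    ring

lemma cq_three (h3 : q % 3 = 2) : cq q (sp (3 : eis)) = 1 := by
  have e : (3 : eis) = ((3 : ℤ) : eis) := by push_cast; rfl
  rw [e]
  refine cq_int ?_
  have := three_ne (q := q) h3
  exact_mod_cast this

end ff

end Pool.Agent.H98.Q
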