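import Mathlib

/-!
# The parameter: plus or minus a prime number
-/

set_option autoImplicit false

namespace Pool.Agent.H98.Q

/-- `d = ± q` is congruent to `1` modulo four, where `q` is a prime number congruent to two modulo
three -/
structure Dd (d : ℤ) : Prop where
  pr : d.natAbs.Prime
  m3 : d.natAbs % 3 = 2
  m4 : d % 4 = 1

variable {d : ℤ}

lemma Dd.ne (h : Dd d) : d ≠ 0 := by
  rintro rfl
  exact absurd h.m4 (by norm_num)

lemma Dd.odd (h : Dd d) : ∃ m : ℤ, d = 1 + 4 * m := ⟨d / 4, by have := h.m4; omega⟩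

lemma Dd.prime (h : Dd d) : Prime d := Int.prime_iff_natAbs_prime.2 h.pr

lemma Dd.cop2 (h : Dd d) : ∃ a b : ℤ, a * 2 + b * d = 1 := by
  obtain ⟨m, hm⟩ := h.odd
  exact ⟨-2 * m, 1, by rw [hm]; ring⟩

lemma Dd.cop3 (h : Dd d) : ∃ a b : ℤ, a * 3 + b * d = 1 := by
  have h1 : IsCoprime (3 : ℤ) d := by
    rw [Int.isCoprime_iff_gcd_eq_one, Int.gcd_eq_natAbs]
    have h2 : Nat.Coprime (Int.natAbs 3) d.natAbs := by
      show Nat.Coprime 3 d.natAbs
      rw [Nat.coprime_primes Nat.prime_three h.pr]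
      intro h3
      have := h.m3
      rw [← h3] at this
      norm_num at this
    exact h2
  obtain ⟨a, b, hab⟩ := h1
  exact ⟨a, b, hab⟩

/-- two is a cube modulo `d` -/
lemma Dd.cube (h : Dd d) : ∃ x c : ℤ, x ^ 3 - 2 = d * c := by
  have hp : Fact d.natAbs.Prime := ⟨h.pr⟩
  have hq := h.m3
  set q := d.natAbs with hqd
  obtain ⟨k, hk⟩ : ∃ k, q = 3 * k + 2 := ⟨q / 3, by omega⟩
  have h2 : (2 : ZMod q) ≠ 0 := by
    intro h2
    have h3 : (((2 : ℕ) : ℕ) : ZMod q) = 0 := by exact_mod_cast h2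
    rw [ZMod.natCast_eq_zero_iff] at h3
    have h4 : q = 2 := (Nat.prime_dvd_prime_iff_eq hp.out Nat.prime_two).1 h3
    have := h.m4
    omega
  have h5 : ((2 : ZMod q) ^ (2 * k + 1)) ^ 3 = 2 := by
    rw [← pow_mul]
    have e : (2 * k + 1) * 3 = (q - 1) + (q - 1) + 1 := by omega
    rw [e, pow_add, pow_add, ZMod.pow_card_sub_one_eq_one h2]
    ring
  refine ⟨2 ^ (2 * k + 1), ?_⟩
  have h6 : (q : ℤ) ∣ ((2 : ℤ) ^ (2 * k + 1)) ^ 3 - 2 := by
    rw [← ZMod.intCast_zmod_eq_zero_iff_dvd]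
    push_cast
    rw [h5, sub_self]
  have h7 : d ∣ ((2 : ℤ) ^ (2 * k + 1)) ^ 3 - 2 := by
    rw [hqd] at h6
    exact Int.natAbs_dvd.1 h6
  exact h7

end Pool.Agent.H98.Q
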