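import Pool.Agent.H98.B.Five
import Pool.Agent.H98.Q.Par

/-!
# Fields in which an odd prime number congruent to two modulo three is inert
-/

set_option autoImplicit false
set_option linter.unusedSectionVars false
set_option linter.unusedVariables false

open Complex NumberField IsDedekindDomain Filter Topology
open scoped PeriodPair nonZeroDivisors

namespace Pool.Agent.H98.Q

open Pool.Agent.K7.H56
open Pool.Agent.K7.H56.P
open Pool.Agent.R430
open Pool.Agent.Y696 Pool.Agent.W192.HK Pool.Agent.TH936.CM H667R3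
open Pool.Agent.Y688 (NI HL euler v_sub_one v_root v_RR dn dn_surj)
open Pool.Agent.K7.H70.AS (mero_eq2 gI_diff hX1 ram_mul VV_prod gal2' exists_mid nc_of_tower NC)
open Pool.Agent.K7.H56.M
open Pool.Agent.H98.B (int_down)

/-- `d` generates a prime ideal -/
def Pd (d : ℤ) (T : Type) [Field T] [NumberField T] : Prop := (Ideal.span {(d : 𝓞 T)}).IsPrime

section
variable {N T : Type} [Field N] [NumberField N] [Field T] [NumberField T] {d : ℤ}

lemma d_ne (hd : Dd d) : (d : 𝓞 T) ≠ 0 := Int.cast_ne_zero.2 hd.ne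

lemma d_neF (hd : Dd d) : (d : T) ≠ 0 := Int.cast_ne_zero.2 hd.ne

lemma coed : ((d : 𝓞 T) : T) = d := map_intCast (algebraMap (𝓞 T) T) d

lemma coedm (y : 𝓞 T) : ((d * y : 𝓞 T) : T) = d * (y : T) := by
  have : ((d * y : 𝓞 T) : T) = ((d : 𝓞 T) : T) * (y : T) := map_mul (algebraMap (𝓞 T) T) (d : 𝓞 T) y
  rw [this, coed]

/-- the prime generated by `d` -/
noncomputable def pd (hd : Dd d) (hT : Pd d T) : HeightOneSpectrum (𝓞 T) :=
  ⟨Ideal.span {(d : 𝓞 T)}, hT, by
    rw [Ne, Ideal.span_singleton_eq_bot]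
    exact d_ne hd⟩

lemma pd_ideal (hd : Dd d) (hT : Pd d T) : (pd hd hT).asIdeal = Ideal.span {(d : 𝓞 T)} := rfl

lemma mem_pd (hd : Dd d) (hT : Pd d T) {x : 𝓞 T} : x ∈ (pd hd hT).asIdeal ↔ (d : 𝓞 T) ∣ x :=
  Ideal.mem_span_singleton

lemma pd_uniq (hd : Dd d) (hT : Pd d T) {w : HeightOneSpectrum (𝓞 T)} (h : (d : 𝓞 T) ∈ w.asIdeal) :
    w = pd hd hT := by
  apply HeightOneSpectrum.ext
  refine ((pd hd hT).isMaximal.eq_of_le w.isPrime.ne_top ?_).symm
  rw [pd_ideal, Ideal.span_singleton_le_iff_mem]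
  exact h

variable [Algebra N T]

lemma d_down (hd : Dd d) (hT : Pd d T) : Pd d N := by
  have h1 : (Ideal.span {(d : 𝓞 T)}).comap (algebraMap (𝓞 N) (𝓞 T)) = Ideal.span {(d : 𝓞 N)} := by
    ext x
    rw [Ideal.mem_comap, Ideal.mem_span_singleton, Ideal.mem_span_singleton]
    constructor
    · rintro ⟨y, hy⟩
      have h2 : IsIntegral ℤ ((x : N) / d) := by
        apply int_down (T := T)
        have h3 : algebraMap N T ((x : N) / d) = (y : T) := by
          have h4 := congrArg (fun z : 𝓞 T => (z : T)) hy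
          change algebraMap N T (x : N) = _ at h4
          have hd0 : (d : T) ≠ 0 := d_neF hd
          rw [map_div₀, h4, map_intCast, coedm]
          field_simp
        rw [h3]
        exact y.2
      obtain ⟨z, hz⟩ : ∃ z : 𝓞 N, (z : N) = (x : N) / d := ⟨⟨_, h2⟩, rfl⟩
      refine ⟨z, RingOfIntegers.ext ?_⟩
      have hd0 : (d : N) ≠ 0 := d_neF hd
      rw [coedm, hz]
      field_simp
    · rintro ⟨y, rfl⟩
      exact ⟨algebraMap (𝓞 N) (𝓞 T) y, by rw [map_mul, map_intCast]⟩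
  show (Ideal.span {(d : 𝓞 N)}).IsPrime
  rw [← h1]
  have := hT
  unfold Pd at this
  exact Ideal.IsPrime.comap _

lemma int_d (T : Type) [Field T] [NumberField T] (d : ℤ) : IsIntegral ℤ (d : T) := by
  have h5 := isIntegral_algebraMap (R := ℤ) (A := T) (x := d)
  exact h5

lemma one_notin (hd : Dd d) (hT : Pd d T) {a b x y : 𝓞 T} (h : a * x + b * d = 1)
    (hx : x ∈ (pd hd hT).asIdeal) : False := by
  apply (pd hd hT).isPrime.ne_top
  rw [Ideal.eq_top_iff_one, ← h]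
  exact Ideal.add_mem _ (Ideal.mul_mem_left _ _ hx) (Ideal.mul_mem_left _ _ ((mem_pd hd hT).2 dvd_rfl))

lemma d_ns (hd : Dd d) (hT : Pd d T) (x : T) : x ^ 2 ≠ d := by
  intro h
  have hx : IsIntegral ℤ x := by
    refine IsIntegral.of_pow (n := 2) two_pos ?_
    rw [h]
    exact int_d T d
  set y : 𝓞 T := ⟨x, hx⟩ with hy
  have h1 : y ^ 2 = d := RingOfIntegers.ext (by
    rw [coed, ← h]
    rfl)
  have h2 : y ∈ (pd hd hT).asIdeal := by
    refine (pd hd hT).isPrime.mem_of_pow_mem 2 ?_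
    rw [h1, mem_pd]
  obtain ⟨z, hz⟩ := (mem_pd hd hT).1 h2
  rw [hz] at h1
  have h3 : (d : 𝓞 T) * (d * z ^ 2) = d * 1 := by linear_combination h1
  have h4 := mul_left_cancel₀ (d_ne hd) h3
  apply (pd hd hT).isPrime.ne_top
  rw [Ideal.eq_top_iff_one, mem_pd]
  exact ⟨z ^ 2, h4.symm⟩

lemma three_pd (hd : Dd d) (hT : Pd d T) : (3 : 𝓞 T) ∉ (pd hd hT).asIdeal := by
  intro h
  obtain ⟨a, b, hab⟩ := hd.cop3
  refine one_notin hd hT (a := (a : 𝓞 T)) (b := (b : 𝓞 T)) (x := 3) (y := 0) ?_ h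
  have := congrArg (fun z : ℤ => (z : 𝓞 T)) hab
  push_cast at this
  exact this

lemma two_pd (hd : Dd d) (hT : Pd d T) : (2 : 𝓞 T) ∉ (pd hd hT).asIdeal := by
  intro h
  obtain ⟨a, b, hab⟩ := hd.cop2
  refine one_notin hd hT (a := (a : 𝓞 T)) (b := (b : 𝓞 T)) (x := 2) (y := 0) ?_ h
  have := congrArg (fun z : ℤ => (z : 𝓞 T)) hab
  push_cast at this
  exact this

lemma bad_pd (hd : Dd d) (hT : Pd d T) : ∃ x : 𝓞 T, x ^ 3 - 2 ∈ (pd hd hT).asIdeal := by
  obtain ⟨x, c, hxc⟩ := hd.cube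
  refine ⟨(x : 𝓞 T), ?_⟩
  rw [mem_pd]
  refine ⟨(c : 𝓞 T), ?_⟩
  have := congrArg (fun z : ℤ => (z : 𝓞 T)) hxc
  push_cast at this
  exact this

/-- the prime is not ramified -/
lemma pd_unr [IsGalois N T] (hd : Dd d) (hT : Pd d T) {w : HeightOneSpectrum (𝓞 T)}
    (h : (d : 𝓞 T) ∈ w.asIdeal)
    {σ : Gal(T/N)} (hσ : ∀ x : 𝓞 T, σ • x - x ∈ w.asIdeal) : σ = 1 := by
  have hN : Pd d N := d_down (N := N) hd hT
  have hw := pd_uniq hd hT h
  subst hw
  have hdn : dn N (pd hd hT) = pd hd hN := pd_uniq hd hN (by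
    show algebraMap (𝓞 N) (𝓞 T) d ∈ (pd hd hT).asIdeal
    rw [map_intCast]
    exact h)
  have hlo : (pd hd hT).asIdeal.LiesOver (pd hd hN).asIdeal := ⟨by
    rw [← hdn]
    rfl⟩
  have e : (pd hd hN).asIdeal.ramificationIdx' (pd hd hT).asIdeal = 1 := by
    refine Ideal.ramificationIdx'_spec ?_ ?_
    · rw [pow_one, pd_ideal, pd_ideal, Ideal.map_span, Set.image_singleton, map_intCast]
    · rw [pd_ideal, pd_ideal, Ideal.map_span, Set.image_singleton, map_intCast,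
        Ideal.span_singleton_pow, Ideal.span_singleton_le_span_singleton]
      rintro ⟨c, hc⟩
      have h3 : (d : 𝓞 T) * 1 = d * (d * c) := by linear_combination hc
      have h4 := mul_left_cancel₀ (d_ne hd) h3
      apply (pd hd hT).isPrime.ne_top
      rw [Ideal.eq_top_iff_one, mem_pd]
      exact ⟨c, h4⟩
  rw [Ideal.ramificationIdx'_eq_ramificationIdx _ _ (pd hd hN).ne_bot] at e
  exact unr_g _ (Algebra.isUnramifiedAt_iff_of_isDedekindDomain.2 e) hσ

end

/-! ### the quadratic extension by the square root -/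

section
variable {N D : Type} [Field N] [NumberField N] [Field D] [NumberField D] [Algebra N D] {r : D}
  {d : ℤ}

/-- the root generates -/
lemma d_gen (hd : Dd d) (hN : Pd d N) (h2 : Module.finrank N D = 2) (hr : r ^ 2 = d) :
    IntermediateField.adjoin N {r} = ⊤ := by
  rcases (Module.finrank_mul_finrank N (IntermediateField.adjoin N {r}) D) with h3
  rw [h2] at h3
  have h4 : Module.finrank N (IntermediateField.adjoin N {r}) ≠ 1 := by
    intro h1
    have h5 : IntermediateField.adjoin N {r} = ⊥ := IntermediateField.finrank_eq_one_iff.1 h1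
    have h6 : r ∈ (⊥ : IntermediateField N D) := by
      rw [← h5]
      exact IntermediateField.mem_adjoin_simple_self N r
    obtain ⟨x, hx⟩ := IntermediateField.mem_bot.1 h6
    apply d_ns hd hN x
    apply (algebraMap N D).injective
    rw [map_pow, hx, hr, map_intCast]
  have h5 : Module.finrank N (IntermediateField.adjoin N {r}) = 2 := by
    have h7 : Module.finrank N (IntermediateField.adjoin N {r}) ∣ 2 := Dvd.intro _ h3
    exact ((Nat.dvd_prime Nat.prime_two).1 h7).resolve_left h4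
  refine IntermediateField.eq_of_le_of_finrank_eq le_top ?_
  rw [h5, IntermediateField.finrank_top', h2]

lemma d_one (hd : Dd d) (hN : Pd d N) (h2 : Module.finrank N D = 2) (hr : r ^ 2 = d)
    {σ : Gal(D/N)} (h : σ r = r) : σ = 1 := by
  apply AlgEquiv.ext
  intro x
  have h1 : x ∈ IntermediateField.adjoin N {r} := by
    rw [d_gen hd hN h2 hr]
    trivial
  have h2' : IntermediateField.adjoin N {r} ≤ IntermediateField.fixedField (Subgroup.zpowers σ) := by
    rw [IntermediateField.adjoin_simple_le_iff]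
    intro τ
    obtain ⟨τ, n, rfl⟩ := τ
    show (σ ^ n) r = r
    have h3 : ∀ k : ℕ, (σ ^ k) r = r := by
      intro k
      induction k with
      | zero => rfl
      | succ k ih => rw [pow_succ, AlgEquiv.mul_apply, h, ih]
    obtain ⟨k, rfl | rfl⟩ := n.eq_nat_or_neg
    · rw [zpow_natCast]
      exact h3 k
    · rw [zpow_neg, zpow_natCast]
      show ((σ ^ k)⁻¹ : D ≃ₐ[N] D) r = r
      rw [AlgEquiv.aut_inv, AlgEquiv.symm_apply_eq, h3 k]
  exact (h2' h1) ⟨σ, Subgroup.mem_zpowers σ⟩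

lemma d_neg (hd : Dd d) (hN : Pd d N) (h2 : Module.finrank N D = 2) (hr : r ^ 2 = d)
    {σ : Gal(D/N)} (h : σ ≠ 1) : σ r = -r := by
  have h1 : (σ r) ^ 2 = r ^ 2 := by
    rw [← map_pow, hr, map_intCast]
  rcases sq_eq_sq_iff_eq_or_eq_neg.1 h1 with h3 | h3
  · exact absurd (d_one hd hN h2 hr h3) h
  · exact h3

lemma int_half (hd : Dd d) (hr : r ^ 2 = d) : IsIntegral ℤ ((1 + r) / 2) := by
  obtain ⟨m, hm⟩ := hd.odd
  refine ⟨Polynomial.X ^ 2 - Polynomial.X - Polynomial.C m, ?_, ?_⟩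
  · monicity!
  · simp only [Polynomial.eval₂_sub, Polynomial.eval₂_pow, Polynomial.eval₂_X, Polynomial.eval₂_C]
    have e : (algebraMap ℤ D) m = (m : D) := rfl
    rw [e]
    have h1 : (d : D) = 1 + 4 * m := by
      rw [hm]
      push_cast
      ring
    rw [h1] at hr
    field_simp
    linear_combination hr

lemma int_r (hr : r ^ 2 = d) : IsIntegral ℤ r := by
  refine IsIntegral.of_pow (n := 2) two_pos ?_
  rw [hr]
  exact int_d D d

/-- away from `d` nothing is ramified -/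
lemma d_away (hd : Dd d) (hN : Pd d N) (h2 : Module.finrank N D = 2) (hr : r ^ 2 = d)
    {w : HeightOneSpectrum (𝓞 D)} (hw : (d : 𝓞 D) ∉ w.asIdeal) {σ : Gal(D/N)}
    (hσ : ∀ x : 𝓞 D, σ • x - x ∈ w.asIdeal) : σ = 1 := by
  by_contra hne
  have h1 := d_neg hd hN h2 hr hne
  obtain ⟨z, hz⟩ : ∃ z : 𝓞 D, (z : D) = (1 + r) / 2 := ⟨⟨_, int_half hd hr⟩, rfl⟩
  obtain ⟨y, hy⟩ : ∃ y : 𝓞 D, (y : D) = r := ⟨⟨_, int_r hr⟩, rfl⟩
  have h3 := hσ z
  have h4 : σ • z - z = -y := by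
    apply RingOfIntegers.ext
    show σ (z : D) - (z : D) = -(y : D)
    rw [hz, hy, map_div₀, map_add, map_one, h1, map_ofNat]
    field_simp
    ring
  rw [h4, Ideal.neg_mem_iff] at h3
  apply hw
  have h5 : (d : 𝓞 D) = y * y := by
    apply RingOfIntegers.ext
    show ((d : 𝓞 D) : D) = (y : D) * (y : D)
    rw [coed, hy, ← hr]
    ring
  rw [h5]
  exact Ideal.mul_mem_left _ _ h3

/-- `d` is ramified -/
lemma d_ram [IsGalois N D] (hd : Dd d) (hN : Pd d N) (h2 : Module.finrank N D = 2) (hr : r ^ 2 = d) :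
    ∃ (w : HeightOneSpectrum (𝓞 D)) (σ : D ≃ₐ[N] D), σ ≠ 1 ∧
      (∀ x : 𝓞 D, σ • x - x ∈ w.asIdeal) ∧ w.asIdeal.under (𝓞 N) = (pd hd hN).asIdeal := by
  obtain ⟨w, hw⟩ := exists_above (K := D) (pd hd hN)
  have hcard : Nat.card Gal(D/N) = 2 := by rw [IsGalois.card_aut_eq_finrank, h2]
  obtain ⟨σ, hσ⟩ : ∃ σ : Gal(D/N), σ ≠ 1 := by
    by_contra hcon
    push Not at hcon
    have : Subsingleton Gal(D/N) := ⟨fun a b => by rw [hcon a, hcon b]⟩
    rw [Nat.card_unique] at hcard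
    omega
  refine ⟨w, σ, hσ, ?_, hw.over.symm⟩
  obtain ⟨ρ, hρ⟩ : ∃ ρ : 𝓞 D, (ρ : D) = r := ⟨⟨_, int_r hr⟩, rfl⟩
  have hρ2 : ρ * ρ = d := by
    apply RingOfIntegers.ext
    show (ρ : D) * (ρ : D) = ((d : 𝓞 D) : D)
    rw [coed, hρ, ← hr]
    ring
  have h5w : (d : 𝓞 D) ∈ w.asIdeal := by
    have h5 : (d : 𝓞 N) ∈ (pd hd hN).asIdeal := (mem_pd hd hN).2 dvd_rfl
    rw [hw.over] at h5
    have h6 : algebraMap (𝓞 N) (𝓞 D) d ∈ w.asIdeal := h5
    rwa [map_intCast] at h6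
  have hρw : ρ ∈ w.asIdeal := by
    rw [← hρ2] at h5w
    exact (w.isPrime.mem_or_mem h5w).elim id id
  have h1 := d_neg hd hN h2 hr hσ
  intro x
  set y : 𝓞 D := σ • x - x with hy
  have hσ2 : σ * σ = 1 := d_one hd hN h2 hr (by
    rw [AlgEquiv.mul_apply, h1, map_neg, h1, neg_neg])
  have hσy : σ • y = -y := by
    rw [hy, smul_sub, ← mul_smul, hσ2, one_smul]
    ring
  have hσρ : σ • ρ = -ρ := by
    apply RingOfIntegers.ext
    show σ (ρ : D) = -(ρ : D)
    rw [hρ, h1]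
  have hfix : σ • (y * ρ) = y * ρ := by
    rw [smul_mul', hσy, hσρ]
    ring
  have honly : ∀ τ : Gal(D/N), τ ≠ 1 → τ = σ := by
    intro τ hτ
    have h8 : τ * σ = 1 := d_one hd hN h2 hr (by
      rw [AlgEquiv.mul_apply, h1, map_neg, d_neg hd hN h2 hr hτ, neg_neg])
    have h9 : σ * σ = τ * σ := by rw [h8, hσ2]
    exact (mul_right_cancel h9).symm
  obtain ⟨c, hc⟩ : ∃ c : 𝓞 N, algebraMap (𝓞 N) (𝓞 D) c = y * ρ := by
    refine Algebra.IsInvariant.isInvariant (A := 𝓞 N) (G := Gal(D/N)) (y * ρ) fun τ => ?_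
    by_cases hτ : τ = 1
    · rw [hτ, one_smul]
    · rw [honly τ hτ, hfix]
  obtain ⟨b, hb⟩ : ∃ b : 𝓞 N, algebraMap (𝓞 N) (𝓞 D) b = y * y := by
    refine Algebra.IsInvariant.isInvariant (A := 𝓞 N) (G := Gal(D/N)) (y * y) fun τ => ?_
    by_cases hτ : τ = 1
    · rw [hτ, one_smul]
    · rw [honly τ hτ, smul_mul', hσy]
      ring
  have hinj : Function.Injective (algebraMap (𝓞 N) (𝓞 D)) := FaithfulSMul.algebraMap_injective _ _
  have h10 : c * c = d * b := by
    apply hinj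
    rw [map_mul, map_mul, hc, hb, map_intCast, ← hρ2]
    ring
  have h11 : c ∈ (pd hd hN).asIdeal := by
    have h12 : c * c ∈ (pd hd hN).asIdeal := by
      rw [h10, mem_pd]
      exact Dvd.intro _ rfl
    exact ((pd hd hN).isPrime.mem_or_mem h12).elim id id
  obtain ⟨c', hc'⟩ := (mem_pd hd hN).1 h11
  have h13 : y = ρ * algebraMap (𝓞 N) (𝓞 D) c' := by
    have hρ0 : ρ ≠ 0 := by
      intro h0
      rw [h0, mul_zero] at hρ2
      exact d_ne hd hρ2.symm
    apply mul_right_cancel₀ hρ0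
    rw [← hc, hc', map_mul, map_intCast, ← hρ2]
    ring
  rw [h13]
  exact Ideal.mul_mem_right _ _ hρw

/-- two remains unramified -/
lemma unr2_d [IsGalois N D] (hd : Dd d) (hN : Pd d N) (h2 : Module.finrank N D = 2) (hr : r ^ 2 = d)
    (hU : Unr2 N) : Unr2 D := by
  intro w hw
  have hlo : w.asIdeal.LiesOver (dn N w).asIdeal := ⟨rfl⟩
  have h2w : ((2 : ℕ) : 𝓞 N) ∈ (dn N w).asIdeal := by
    show algebraMap (𝓞 N) (𝓞 D) _ ∈ w.asIdeal
    rwa [map_natCast]
  have h5 : (d : 𝓞 D) ∉ w.asIdeal := by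
    intro h5
    apply w.isPrime.ne_top
    rw [Ideal.eq_top_iff_one]
    obtain ⟨a, b, hab⟩ := hd.cop2
    have : (1 : 𝓞 D) = a * ((2 : ℕ) : 𝓞 D) + b * d := by
      have := congrArg (fun z : ℤ => (z : 𝓞 D)) hab
      push_cast at this ⊢
      exact this.symm
    rw [this]
    exact Ideal.add_mem _ (Ideal.mul_mem_left _ _ hw) (Ideal.mul_mem_left _ _ h5)
  have e1 : (dn N w).asIdeal.ramificationIdx' w.asIdeal = 1 :=
    ram_one hlo fun σ hσ => d_away hd hN h2 hr h5 hσ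
  have e2 := HeightOneSpectrum.valuation_liesOver (K := N) D (dn N w) w (2 : N)
  rw [e1, pow_one, hU _ h2w, map_ofNat] at e2
  exact e2.symm

end

end Pool.Agent.H98.Q
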